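import Mathlib
import Pool.Agent.Lib.MP_16ef92_ag.FT.Stm
import Pool.Agent.Lib.MP_16ef92_ag.FA.PO
import Pool.Agent.Lib.MP_16ef92_ag.CV.EDef

set_option autoImplicit false
set_option linter.unusedSectionVars false
set_option linter.unusedVariables false
set_option linter.style.haveILetI false

namespace Pool.Agent.Lib.MP_16ef92_ag.TP

noncomputable section

open Polynomial WeierstrassCurve

variable {A A' X X' Z ι : Type} [CommRing A] [CommRing A'] [CommRing X] [CommRing X'] [CommRing Z]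

/-- The equations. -/
def Eqs (a b x y : ι → X) : Prop := ∀ i, y i ^ 2 = x i * (x i - a i) * (x i - b i)

/-- `X` is generated over `A` by the `x i`, `y i`, subject to the equations. -/
structure Prs (a b : ι → A) (φ : A →+* X) (x y : ι → X) : Prop where
  eq : Eqs (φ ∘ a) (φ ∘ b) x y
  ex : ∀ (Z : Type) [CommRing Z] (ψ : A →+* Z) (x' y' : ι → Z), Eqs (ψ ∘ a) (ψ ∘ b) x' y' →
    ∃ χ : X →+* Z, χ.comp φ = ψ ∧ (∀ i, χ (x i) = x' i) ∧ ∀ i, χ (y i) = y' i
  uq : ∀ (Z : Type) [CommRing Z] (χ χ' : X →+* Z), χ.comp φ = χ'.comp φ →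
    (∀ i, χ (x i) = χ' (x i)) → (∀ i, χ (y i) = χ' (y i)) → χ = χ'

variable {a b : ι → A} {φ : A →+* X} {x y : ι → X} {a' b' : ι → A'} {φ' : A' →+* X'}
  {x' y' : ι → X'}

theorem Eqs.map {a b x y : ι → X} (h : Eqs a b x y) (χ : X →+* Z) :
    Eqs (χ ∘ a) (χ ∘ b) (χ ∘ x) (χ ∘ y) := fun i => by
  simpa using congrArg χ (h i)

theorem prs_fib (a b : ι → A) : Prs a b (algebraMap A (FT.fibRing a b))
    (fun i => Ideal.Quotient.mk _ (MvPolynomial.X (Sum.inl i)))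
    fun i => Ideal.Quotient.mk _ (MvPolynomial.X (Sum.inr i)) := by
  have hal : ∀ r : A, algebraMap A (FT.fibRing a b) r =
      Ideal.Quotient.mk (FT.fibIdeal a b) (MvPolynomial.C r) := fun _ => rfl
  refine ⟨fun i => ?_, fun Z _ ψ x' y' h => ?_, fun Z _ χ χ' h1 h2 h3 => ?_⟩
  · have : Ideal.Quotient.mk (FT.fibIdeal a b) (MvPolynomial.X (Sum.inr i) ^ 2 -
        MvPolynomial.X (Sum.inl i) * (MvPolynomial.X (Sum.inl i) - MvPolynomial.C (a i)) *
        (MvPolynomial.X (Sum.inl i) - MvPolynomial.C (b i))) = 0 :=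
      Ideal.Quotient.eq_zero_iff_mem.2 (Ideal.subset_span ⟨i, rfl⟩)
    simp only [map_sub, map_mul, map_pow] at this
    simp only [Function.comp_apply, hal]
    exact sub_eq_zero.1 this
  · have hk : ∀ p ∈ FT.fibIdeal a b, MvPolynomial.eval₂Hom ψ (Sum.elim x' y') p = 0 := by
      intro p hp
      refine (Ideal.span_le.2 ?_ : FT.fibIdeal a b ≤ RingHom.ker _) hp
      rintro _ ⟨i, rfl⟩
      have := h i
      simp only [Function.comp_apply] at this
      simp [RingHom.mem_ker, this]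
    refine ⟨Ideal.Quotient.lift _ _ hk, ?_, fun i => ?_, fun i => ?_⟩
    · ext r
      simp [hal]
    · simp
    · simp
  · refine Ideal.Quotient.ringHom_ext (MvPolynomial.ringHom_ext (fun r => ?_) ?_)
    · exact RingHom.congr_fun h1 r
    · rintro (i | i)
      · exact h2 i
      · exact h3 i

theorem prsa_eqs {φ₁ : A →+* X'} {τ : A' →+* A} {a₀ b₀ : ι → A'} (ha : ∀ i, τ (a₀ i) = a i)
    (hb : ∀ i, τ (b₀ i) = b i) (h : Eqs (φ₁ ∘ a) (φ₁ ∘ b) x' y') :
    Eqs ((φ₁.comp τ) ∘ a₀) ((φ₁.comp τ) ∘ b₀) x' y' := fun i => by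
  have := h i
  simp only [Function.comp_apply] at this
  simp only [Function.comp_apply, RingHom.comp_apply, ha, hb]
  exact this

theorem Prs.equiv (h : Prs a b φ x y) {φ₁ : A →+* X'} (h' : Prs a b φ₁ x' y') :
    ∃ e : X ≃+* X', e.toRingHom.comp φ = φ₁ ∧ (∀ i, e (x i) = x' i) ∧ ∀ i, e (y i) = y' i := by
  obtain ⟨w, w1, w2, w3⟩ := h.ex X' φ₁ x' y' h'.eq
  obtain ⟨v, v1, v2, v3⟩ := h'.ex X φ x y h.eq
  refine ⟨RingEquiv.ofRingHom w v (h'.uq _ _ _ ?_ ?_ ?_) (h.uq _ _ _ ?_ ?_ ?_), w1, w2, w3⟩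
  · rw [RingHom.comp_assoc, v1, w1, RingHom.id_comp]
  · intro i
    simp [v2, w2]
  · intro i
    simp [v3, w3]
  · rw [RingHom.comp_assoc, w1, v1, RingHom.id_comp]
  · intro i
    simp [v2, w2]
  · intro i
    simp [v3, w3]

theorem Prs.ft [Finite ι] (h : Prs a b φ x y) : φ.FiniteType := by
  obtain ⟨e, e1, -⟩ := (prs_fib a b).equiv h
  rw [← e1]
  refine RingHom.FiniteType.comp (RingHom.FiniteType.of_surjective _ e.surjective) ?_
  exact RingHom.finiteType_algebraMap.2 inferInstance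

theorem Prs.bij [IsEmpty ι] (h : Prs a b φ x y) : Function.Bijective φ := by
  have h0 : Prs a b (RingHom.id A) (fun i => isEmptyElim i) (fun i => isEmptyElim i) :=
    ⟨fun i => isEmptyElim i,
      fun Z _ ψ _ _ _ => ⟨ψ, rfl, fun i => isEmptyElim i, fun i => isEmptyElim i⟩,
      fun Z _ χ χ' e _ _ => e⟩
  obtain ⟨e, e1, -⟩ := h0.equiv h
  rw [← e1]
  exact e.bijective

/-- Base change. -/
theorem Prs.po (h : Prs a b φ x y) {τ : A →+* A'} {i : X →+* X'} (hP : FA.PO φ τ i φ') :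
    Prs (τ ∘ a) (τ ∘ b) φ' (i ∘ x) (i ∘ y) := by
  refine ⟨fun k => ?_, fun Z _ ψ x₁ y₁ e => ?_, fun Z _ χ χ' h1 h2 h3 => ?_⟩
  · have h1 := h.eq.map i k
    have h2 : ∀ r, i (φ r) = φ' (τ r) := fun r => RingHom.congr_fun hP.comm r
    simp only [Function.comp_apply, h2] at h1
    exact h1
  · obtain ⟨u, u1, u2, u3⟩ := h.ex Z (ψ.comp τ) x₁ y₁ e
    obtain ⟨w, w1, w2⟩ := hP.ex Z u ψ u1
    refine ⟨w, w2, fun k => ?_, fun k => ?_⟩
    · exact (RingHom.congr_fun w1 (x k)).trans (u2 k)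
    · exact (RingHom.congr_fun w1 (y k)).trans (u3 k)
  · refine hP.uq Z χ χ' (h.uq Z _ _ ?_ h2 h3) h1
    rw [RingHom.comp_assoc, RingHom.comp_assoc, hP.comm, ← RingHom.comp_assoc, h1,
      RingHom.comp_assoc]

theorem Prs.to_po (h : Prs a b φ x y) (h' : Prs a' b' φ' x' y') {τ : A →+* A'}
    (ha : ∀ i, τ (a i) = a' i) (hb : ∀ i, τ (b i) = b' i) {i : X →+* X'}
    (e : i.comp φ = φ'.comp τ) (ex : ∀ k, i (x k) = x' k) (ey : ∀ k, i (y k) = y' k) :
    FA.PO φ τ i φ' := by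
  refine ⟨e, fun Z _ u v c => ?_, fun Z _ w w' h1 h2 => h'.uq Z w w' h2 (fun k => ?_) fun k => ?_⟩
  · have c' : ∀ r, u (φ r) = v (τ r) := fun r => RingHom.congr_fun c r
    obtain ⟨w, w1, w2, w3⟩ := h'.ex Z v (u ∘ x) (u ∘ y) (fun k => by
      have h1 := h.eq.map u k
      simp only [Function.comp_apply, c', ha, hb] at h1
      exact h1)
    refine ⟨w, h.uq Z _ _ ?_ (fun k => ?_) (fun k => ?_), w1⟩
    · rw [RingHom.comp_assoc, e, ← RingHom.comp_assoc, w1, c]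
    · rw [RingHom.comp_apply, ex, w2, Function.comp_apply]
    · rw [RingHom.comp_apply, ey, w3, Function.comp_apply]
  · rw [← ex]
    exact RingHom.congr_fun h1 (x k)
  · rw [← ey]
    exact RingHom.congr_fun h1 (y k)

/-- The map over a homomorphism of base rings. -/
theorem Prs.exists_map (h : Prs a b φ x y) (h' : Prs a' b' φ' x' y') {τ : A →+* A'}
    (ha : ∀ i, τ (a i) = a' i) (hb : ∀ i, τ (b i) = b' i) : ∃ i : X →+* X',
      i.comp φ = φ'.comp τ ∧ (∀ k, i (x k) = x' k) ∧ ∀ k, i (y k) = y' k :=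
  h.ex X' (φ'.comp τ) x' y' (prsa_eqs ha hb h'.eq)

/-- A group action on the base that fixes the coefficients extends. -/
theorem Prs.exists_act (h : Prs a b φ x y) {Γ : Type} [Group Γ] (ρ : Γ →* (A →+* A))
    (ha : ∀ g i, ρ g (a i) = a i) (hb : ∀ g i, ρ g (b i) = b i) : ∃ ρ' : Γ →* (X →+* X),
      ∀ g, (ρ' g).comp φ = φ.comp (ρ g) ∧ (∀ k, ρ' g (x k) = x k) ∧ ∀ k, ρ' g (y k) = y k := by
  choose r r1 r2 r3 using fun g => h.exists_map h (ha g) (hb g)
  refine ⟨⟨⟨r, h.uq X _ _ ?_ (fun k => r2 1 k) fun k => r3 1 k⟩, fun g g' =>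
    h.uq X _ _ ?_ (fun k => ?_) fun k => ?_⟩, fun g => ⟨r1 g, r2 g, r3 g⟩⟩
  · rw [r1, map_one]
    rfl
  · change (r (g * g')).comp φ = ((r g).comp (r g')).comp φ
    rw [r1, map_mul, RingHom.comp_assoc, r1, ← RingHom.comp_assoc, r1]
    rfl
  · change r (g * g') (x k) = r g (r g' (x k))
    rw [r2, r2, r2]
  · change r (g * g') (y k) = r g (r g' (y k))
    rw [r3, r3, r3]

/-- The curve `y^2 = x (x - a) (x - b)`. -/
def wc (a b : A) : Affine A := ⟨0, -(a + b), 0, a * b, 0⟩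

theorem wc_map (a b : A) (τ : A →+* A') : (wc a b).map τ = wc (τ a) (τ b) := by
  ext <;> simp [wc]

theorem wc_ok {a b : A} (h2 : IsUnit (2 : A)) (h : IsUnit (a * b * (a - b))) : CV.Ok (wc a b) := by
  refine ⟨rfl, rfl, h2, ?_⟩
  have e : (wc a b).Δ = 2 ^ 4 * (a * b * (a - b)) ^ 2 := by
    simp only [wc, WeierstrassCurve.Δ, WeierstrassCurve.b₂, WeierstrassCurve.b₄,
      WeierstrassCurve.b₆, WeierstrassCurve.b₈]
    ring
  rw [e]
  exact (h2.pow 4).mul (h.pow 2)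

/-- The first coordinate. -/
def xc (a b : A) : (wc a b).CoordinateRing := Affine.CoordinateRing.mk _ (C Polynomial.X)

/-- The second coordinate. -/
def yc (a b : A) : (wc a b).CoordinateRing := Affine.CoordinateRing.mk _ Polynomial.X

theorem prsb_poly (a b : A) : (wc a b).polynomial =
    Polynomial.X ^ 2 - C (Polynomial.X * (Polynomial.X - C a) * (Polynomial.X - C b)) := by
  simp only [Affine.polynomial, wc, map_zero, zero_mul, add_zero, map_neg, map_add, map_mul,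
    map_sub, map_pow]
  ring

theorem prsb_alg (a b c : A) : algebraMap A (wc a b).CoordinateRing c =
    Affine.CoordinateRing.mk (wc a b) (C (C c)) := rfl

theorem prsb_ext {a b : A} {χ χ' : (wc a b).CoordinateRing →+* Z}
    (h : χ.comp (algebraMap A _) = χ'.comp (algebraMap A _)) (hx : χ (xc a b) = χ' (xc a b))
    (hy : χ (yc a b) = χ' (yc a b)) : χ = χ' := by
  have e : χ.comp (Affine.CoordinateRing.mk (wc a b)) =
      χ'.comp (Affine.CoordinateRing.mk (wc a b)) :=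
    Polynomial.ringHom_ext' (Polynomial.ringHom_ext (fun c => RingHom.congr_fun h c) hx) hy
  refine RingHom.ext fun s => ?_
  obtain ⟨p, rfl⟩ := AdjoinRoot.mk_surjective s
  exact RingHom.congr_fun e p

theorem prsb_lift (a b : A) (ψ : A →+* Z) (u v : Z) (h : v ^ 2 = u * (u - ψ a) * (u - ψ b)) :
    ∃ χ : (wc a b).CoordinateRing →+* Z, χ.comp (algebraMap A _) = ψ ∧ χ (xc a b) = u ∧
      χ (yc a b) = v := by
  have h0 : (wc a b).polynomial.eval₂ (eval₂RingHom ψ u) v = 0 := by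
    rw [prsb_poly, eval₂_sub, eval₂_pow, eval₂_X, eval₂_C, h]
    simp
  refine ⟨AdjoinRoot.lift (eval₂RingHom ψ u) v h0, RingHom.ext fun c => ?_, ?_, ?_⟩
  · rw [RingHom.comp_apply, prsb_alg, AdjoinRoot.lift_mk, eval₂_C, coe_eval₂RingHom, eval₂_C]
  · rw [xc, AdjoinRoot.lift_mk, eval₂_C, coe_eval₂RingHom, eval₂_X]
  · rw [yc, AdjoinRoot.lift_mk, eval₂_X]

theorem prs_wc (a b : A) : Prs (fun _ : Unit => a) (fun _ => b)
    (algebraMap A (wc a b).CoordinateRing) (fun _ => xc a b) fun _ => yc a b := by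
  refine ⟨fun _ => ?_, fun Z _ ψ x' y' h => ?_, fun Z _ χ χ' h hx hy => prsb_ext h (hx ()) (hy ())⟩
  · have h : Affine.CoordinateRing.mk (wc a b) (wc a b).polynomial = 0 := AdjoinRoot.mk_self
    rw [congrArg (Affine.CoordinateRing.mk (wc a b)) (prsb_poly a b)] at h
    simp only [map_sub, map_mul, map_pow] at h
    exact sub_eq_zero.1 h
  · obtain ⟨χ, h1, h2, h3⟩ := prsb_lift a b ψ (x' ()) (y' ()) (h ())
    exact ⟨χ, h1, fun _ => h2, fun _ => h3⟩

theorem cm_of {a b : A} {a' b' : A'} {τ : A →+* A'} (ha : τ a = a') (hb : τ b = b')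
    {ψ : (wc a b).CoordinateRing →+* (wc a' b').CoordinateRing}
    (e : ψ.comp (algebraMap _ _) = (algebraMap _ _).comp τ) (ex : ψ (xc a b) = xc a' b')
    (ey : ψ (yc a b) = yc a' b') : CV.CM (wc a b) (wc a' b') τ ψ := by
  subst ha hb
  refine ⟨wc_map a b τ, fun p => ?_⟩
  have h : ψ.comp (Affine.CoordinateRing.mk (wc a b)) =
      (Affine.CoordinateRing.mk (wc (τ a) (τ b))).comp (mapRingHom (mapRingHom τ)) := by
    refine Polynomial.ringHom_ext' (Polynomial.ringHom_ext (fun c => ?_) ?_) ?_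
    · simp only [RingHom.comp_apply, coe_mapRingHom, map_C]
      exact RingHom.congr_fun e c
    · simp only [RingHom.comp_apply, coe_mapRingHom, map_C, map_X]
      exact ex
    · simp only [RingHom.comp_apply, coe_mapRingHom, map_X]
      exact ey
  exact RingHom.congr_fun h p

/-- The projection to one factor. -/
theorem Prs.exists_proj (h : Eqs (φ ∘ a) (φ ∘ b) x y) (k : ι) :
    ∃ π : (wc (a k) (b k)).CoordinateRing →+* X, π.comp (algebraMap _ _) = φ ∧
      π (xc _ _) = x k ∧ π (yc _ _) = y k := by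
  exact prsb_lift (a k) (b k) φ (x k) (y k) (h k)

/-- Splitting off the first factor. -/
theorem Prs.step {r : ℕ} {a b : Fin (r + 1) → A} {x y : Fin (r + 1) → X} (h : Prs a b φ x y)
    {Y X₁ : Type} [CommRing Y] [CommRing X₁] {f : A →+* Y} {x₀ y₀ : Y}
    (h₀ : Prs (fun _ : Unit => a 0) (fun _ => b 0) f (fun _ => x₀) fun _ => y₀)
    {φ₁ : A →+* X₁} {x₁ y₁ : Fin r → X₁} (h₁ : Prs (Fin.tail a) (Fin.tail b) φ₁ x₁ y₁) :
    ∃ (i : Y →+* X) (j : X₁ →+* X), FA.PO f φ₁ i j ∧ i.comp f = φ ∧ i x₀ = x 0 ∧ i y₀ = y 0 ∧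
      (∀ k, j (x₁ k) = x k.succ) ∧ ∀ k, j (y₁ k) = y k.succ := by
  obtain ⟨i, hi, hix, hiy⟩ := h₀.ex X φ (fun _ => x 0) (fun _ => y 0) fun _ => h.eq 0
  obtain ⟨j, hj, hjx, hjy⟩ := h₁.ex X φ (fun k => x k.succ) (fun k => y k.succ)
    fun k => h.eq k.succ
  refine ⟨i, j, ⟨hi.trans hj.symm, fun Z _ u v e => ?_, fun Z _ w w' e1 e2 => ?_⟩, hi, hix (),
    hiy (), hjx, hjy⟩
  · obtain ⟨w, hw, hwx, hwy⟩ := h.ex Z (u.comp f) (Fin.cons (u x₀) fun k => v (x₁ k))
      (Fin.cons (u y₀) fun k => v (y₁ k)) (Fin.cases (h₀.eq.map u ()) fun k => by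
        rw [e]
        exact h₁.eq.map v k)
    refine ⟨w, h₀.uq Z _ _ ?_ (fun _ => ?_) fun _ => ?_, h₁.uq Z _ _ ?_ (fun k => ?_) fun k => ?_⟩
    · rw [RingHom.comp_assoc, hi, hw]
    · rw [RingHom.comp_apply, hix (), hwx, Fin.cons_zero]
    · rw [RingHom.comp_apply, hiy (), hwy, Fin.cons_zero]
    · rw [RingHom.comp_assoc, hj, hw, e]
    · rw [RingHom.comp_apply, hjx, hwx, Fin.cons_succ]
    · rw [RingHom.comp_apply, hjy, hwy, Fin.cons_succ]
  · refine h.uq Z w w' ?_ (Fin.cases ?_ fun k => ?_) (Fin.cases ?_ fun k => ?_)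
    · rw [← hi, ← RingHom.comp_assoc, e1, RingHom.comp_assoc]
    · rw [← hix ()]
      exact RingHom.congr_fun e1 x₀
    · rw [← hjx k]
      exact RingHom.congr_fun e2 (x₁ k)
    · rw [← hiy ()]
      exact RingHom.congr_fun e1 y₀
    · rw [← hjy k]
      exact RingHom.congr_fun e2 (y₁ k)

end

end Pool.Agent.Lib.MP_16ef92_ag.TP
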