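import Mathlib

set_option autoImplicit false
set_option linter.unusedSectionVars false
set_option linter.unusedVariables false
set_option linter.style.haveILetI false

namespace Pool.Agent.Lib.MP_16ef92_ag.TP

noncomputable section

variable {B W Γ : Type} [CommRing B] [CommRing W] [Group Γ]

/-- A group acting through a finite quotient, freely on geometric points. -/
structure Gal (b : B →+* W) (σ : Γ →* (W →+* W)) (N : Subgroup Γ) : Prop where
  normal : N.Normal
  fin : N.FiniteIndex
  triv : ∀ g ∈ N, ∀ w, σ g w = w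
  inj : Function.Injective b
  fix : ∀ w, (∀ g, σ g w = w) ↔ ∃ r, b r = w
  free : ∀ g, g ∉ N → Ideal.span (Set.range fun w => σ g w - w) = ⊤

variable {b : B →+* W} {σ : Γ →* (W →+* W)} {N : Subgroup Γ}

/-- The map `u ⊗ v ↦ u * σ g v`. -/
def chr_phi (σ : Γ →* (W →+* W)) (g : Γ) : TensorProduct ℤ W W →ₐ[ℤ] W :=
  Algebra.TensorProduct.productMap (AlgHom.id ℤ W) (σ g).toIntAlgHom

theorem chr_phi_tmul (g : Γ) (u v : W) : chr_phi σ g (u ⊗ₜ v) = u * σ g v := rfl

theorem chr_mul (g g' : Γ) (w : W) : σ (g * g') w = σ g (σ g' w) := by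
  rw [map_mul]
  rfl

theorem chr_one (w : W) : σ 1 w = w := by
  rw [map_one]
  rfl

theorem Gal.chr_out (h : Gal b σ N) (g : Γ) (w : W) : σ (g : Γ ⧸ N).out w = σ g w := by
  obtain ⟨n, hn⟩ := QuotientGroup.mk_out_eq_mul N g
  rw [hn, chr_mul, h.triv n n.2]

theorem Gal.chr_fix (h : Gal b σ N) (g : Γ) (r : B) : σ g (b r) = b r :=
  (h.fix _).2 ⟨r, rfl⟩ g

theorem chr_out_mem {q : Γ ⧸ N} : q.out ∈ N ↔ q = ((1 : Γ) : Γ ⧸ N) := by
  conv_rhs => rw [← q.out_eq, eq_comm]
  exact ((QuotientGroup.eq (s := N) (a := 1) (b := q.out)).trans (by simp)).symm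

theorem chr_sep (g : Γ) {a : W} (ha : a ∈ Ideal.span (Set.range fun w => σ g w - w)) :
    ∃ e, chr_phi σ 1 e = 0 ∧ chr_phi σ g e = a := by
  induction ha using Submodule.span_induction with
  | mem x hx =>
    obtain ⟨w, rfl⟩ := hx
    exact ⟨1 ⊗ₜ w - w ⊗ₜ 1, by simp [chr_phi_tmul], by simp [chr_phi_tmul]⟩
  | zero => exact ⟨0, map_zero _, map_zero _⟩
  | add x y _ _ hx hy =>
    obtain ⟨e, h1, h2⟩ := hx
    obtain ⟨e', h3, h4⟩ := hy
    exact ⟨e + e', by rw [map_add, h1, h3, add_zero], by rw [map_add, h2, h4]⟩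
  | smul c x _ hx =>
    obtain ⟨e, h1, h2⟩ := hx
    exact ⟨c ⊗ₜ 1 * e, by rw [map_mul, h1, mul_zero],
      by rw [map_mul, h2, chr_phi_tmul, map_one, mul_one, smul_eq_mul]⟩

/-- Galois coordinates: for `g ∉ N` write `1 = ∑ u (σ g w - w)` and multiply the elements
`∑ u ⊗ w`-type expressions over the nontrivial cosets. -/
theorem Gal.coord (h : Gal b σ N) : ∃ (r : ℕ) (u v : Fin r → W),
    (∑ i, u i * v i = 1) ∧ ∀ g, g ∉ N → ∑ i, u i * σ g (v i) = 0 := by
  classical
  have := h.fin
  have := Fintype.ofFinite (Γ ⧸ N)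
  have h1 : ∀ q : Γ ⧸ N, ∃ x, chr_phi σ 1 x = 1 ∧ (q.out ∉ N → chr_phi σ q.out x = 0) := by
    intro q
    by_cases hq : q.out ∈ N
    · exact ⟨1, map_one _, fun k => absurd hq k⟩
    · obtain ⟨e, h1, h2⟩ := chr_sep (σ := σ) q.out (a := 1) (by rw [h.free _ hq]; trivial)
      exact ⟨1 - e, by rw [map_sub, h1, map_one, sub_zero],
        fun _ => by rw [map_sub, h2, map_one, sub_self]⟩
  choose x hx1 hx2 using h1
  obtain ⟨r, u, v, e⟩ := TensorProduct.exists_sum_tmul_eq (∏ q, x q)
  refine ⟨r, u, v, ?_, fun g hg => ?_⟩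
  · have := congrArg (chr_phi σ 1) e
    rw [map_prod, Finset.prod_eq_one fun q _ => hx1 q, map_sum] at this
    simpa only [chr_phi_tmul, chr_one] using this.symm
  · have hq : (g : Γ ⧸ N).out ∉ N := fun k => hg (by
      have := (QuotientGroup.eq (s := N)).1 (chr_out_mem.1 k).symm
      simpa using this)
    have := congrArg (chr_phi σ (g : Γ ⧸ N).out) e
    rw [map_prod, Finset.prod_eq_zero (f := fun q => chr_phi σ (g : Γ ⧸ N).out (x q))
      (Finset.mem_univ (g : Γ ⧸ N)) (hx2 _ hq), map_sum] at this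
    simpa only [chr_phi_tmul, h.chr_out] using this.symm

/-- The trace and the two expansion formulas. -/
theorem Gal.chr_tr (h : Gal b σ N) [Fintype (Γ ⧸ N)] : ∃ (r : ℕ) (u v : Fin r → W) (t : W → B),
    (∑ i, u i * v i = 1) ∧ (∀ w, b (t w) = ∑ q : Γ ⧸ N, σ q.out w) ∧
    (∀ w, ∑ i, u i * b (t (v i * w)) = w) ∧ ∀ w, ∑ i, b (t (w * u i)) * v i = w := by
  obtain ⟨r, u, v, h1, h2⟩ := h.coord
  have h3 : ∀ w, ∃ r, b r = ∑ q : Γ ⧸ N, σ q.out w := fun w => (h.fix _).1 fun g => by
    rw [map_sum]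
    refine Fintype.sum_equiv (MulAction.toPerm g) _ _ fun q => ?_
    rw [← chr_mul, ← h.chr_out (g * q.out)]
    congr 3
    conv_rhs => rw [← q.out_eq]
    rfl
  choose t ht using h3
  have key : ∀ (w : W) (c : Γ → W), (∀ g ∈ N, c g = 1) → (∀ g, g ∉ N → c g = 0) →
      ∑ q : Γ ⧸ N, c q.out * σ q.out w = w := fun w c c1 c0 => by
    rw [Finset.sum_eq_single ((1 : Γ) : Γ ⧸ N) (fun q _ hq => by
      rw [c0 _ fun k => hq (chr_out_mem.1 k), zero_mul]) (by simp),
      c1 _ (chr_out_mem.2 rfl), one_mul, h.chr_out, chr_one]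
  refine ⟨r, u, v, t, h1, ht, fun w => ?_, fun w => ?_⟩
  · refine Eq.trans ?_ (key w (fun g => ∑ i, u i * σ g (v i))
      (fun g hg => by simpa only [h.triv g hg] using h1) h2)
    simp only [ht, Finset.mul_sum, Finset.sum_mul, map_mul, mul_assoc]
    exact Finset.sum_comm
  · refine Eq.trans ?_ (key w (fun g => ∑ i, σ g (u i) * v i)
      (fun g hg => by simpa only [h.triv g hg] using h1) fun g hg => ?_)
    · simp only [ht, Finset.sum_mul, map_mul]
      rw [Finset.sum_comm]
      exact Finset.sum_congr rfl fun q _ => Finset.sum_congr rfl fun i _ => by ring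
    · have := congrArg (σ g) (h2 g⁻¹ fun k => hg ((inv_mem_iff).1 k))
      simpa only [map_sum, map_mul, ← chr_mul, mul_inv_cancel, chr_one, map_zero] using this

/-- With `tr` the sum over the cosets, `w = ∑ u i * tr (v i * w)`: finite projective, so flat;
`W ⊗ W → ∏ W` is injective, so `∑ u i ⊗ v i` is a separability element. -/
theorem Gal.etale [IsNoetherianRing B] (h : Gal b σ N) : b.Etale := by
  have := h.fin
  have := Fintype.ofFinite (Γ ⧸ N)
  obtain ⟨r, u, v, t, h1, ht, h2, h3⟩ := h.chr_tr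
  letI := b.toAlgebra
  let s : W →ₗ[B] (Fin r → B) :=
    { toFun := fun w i => t (v i * w)
      map_add' := fun w w' => funext fun i => h.inj (by
        simp only [Pi.add_apply, map_add, ht, mul_add, Finset.sum_add_distrib])
      map_smul' := fun c w => funext fun i => h.inj (by
        have e : v i * c • w = b c * (v i * w) := by
          rw [Algebra.smul_def, mul_left_comm]
          rfl
        simp only [Pi.smul_apply, smul_eq_mul, RingHom.id_apply, e]
        rw [map_mul, ht, ht, Finset.mul_sum]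
        exact Finset.sum_congr rfl fun q _ => by rw [map_mul, h.chr_fix]) }
  have hp : (Fintype.linearCombination B u).comp s = LinearMap.id := by
    refine LinearMap.ext fun w => Eq.trans ?_ (h2 w)
    rw [LinearMap.comp_apply, Fintype.linearCombination_apply]
    exact Finset.sum_congr rfl fun i _ => by rw [Algebra.smul_def, mul_comm]; rfl
  have : Module.Projective B W := Module.Projective.of_split s _ hp
  have : Module.Finite B W := Module.Finite.of_surjective (Fintype.linearCombination B u)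
    fun w => ⟨s w, LinearMap.congr_fun hp w⟩
  have : Algebra.FinitePresentation B W := Algebra.FinitePresentation.of_finiteType.1 inferInstance
  have : Algebra.FormallyUnramified B W := by
    refine Algebra.FormallyUnramified.iff_exists_tensorProduct.2 ⟨∑ i, u i ⊗ₜ v i, fun w => ?_, ?_⟩
    · rw [sub_mul, sub_eq_zero]
      simp only [Finset.mul_sum, Algebra.TensorProduct.tmul_mul_tmul, one_mul]
      calc ∑ j, u j ⊗ₜ[B] (w * v j)
          = ∑ j, ∑ i, u j ⊗ₜ[B] (t (v j * w * u i) • v i) := by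
            refine Finset.sum_congr rfl fun j _ => ?_
            rw [← TensorProduct.tmul_sum, mul_comm w]
            exact congrArg _ (h3 _).symm
        _ = ∑ i, ∑ j, (t (v j * w * u i) • u j) ⊗ₜ[B] v i := by
            rw [Finset.sum_comm]
            simp only [TensorProduct.smul_tmul]
        _ = _ := by
            refine Finset.sum_congr rfl fun i _ => ?_
            rw [← TensorProduct.sum_tmul]
            refine congrArg (· ⊗ₜ[B] v i) (Eq.trans ?_ (h2 _))
            exact Finset.sum_congr rfl fun j _ => by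
              rw [Algebra.smul_def, mul_comm, mul_assoc]
              rfl
    · simpa only [map_sum, Algebra.TensorProduct.lmul'_apply_tmul] using h1
  exact Algebra.Etale.of_formallyUnramified_of_flat

theorem Gal.finite (h : Gal b σ N) : b.Finite := by
  have := h.fin
  have := Fintype.ofFinite (Γ ⧸ N)
  obtain ⟨r, u, v, t, -, -, h2, -⟩ := h.chr_tr
  letI := b.toAlgebra
  refine Module.Finite.of_surjective (Fintype.linearCombination B u) fun w =>
    ⟨fun i => t (v i * w), Eq.trans ?_ (h2 w)⟩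
  rw [Fintype.linearCombination_apply]
  exact Finset.sum_congr rfl fun i _ => by rw [Algebra.smul_def, mul_comm]; rfl

/-- `1 = ∑_g ∑_i y (u i) y' (σ g (v i))` as `y`, `y'` agree on traces; and
`(∑_i y (u i) y' (σ g (v i))) * (y w - y' (σ g w)) = 0`. -/
theorem Gal.orbit (h : Gal b σ N) {K : Type} [Field K] (y y' : W →+* K)
    (e : y.comp b = y'.comp b) : ∃ g, y' = y.comp (σ g) := by
  have := h.fin
  have := Fintype.ofFinite (Γ ⧸ N)
  obtain ⟨r, u, v, t, h1, ht, h2, h3⟩ := h.chr_tr
  have e' : ∀ c, y (b c) = y' (b c) := fun c => RingHom.congr_fun e c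
  have h4 : ∑ q : Γ ⧸ N, ∑ i, y' (u i) * y (σ q.out (v i)) = 1 := by
    rw [Finset.sum_comm, ← map_one y', ← h2 1, map_sum]
    refine Finset.sum_congr rfl fun i _ => ?_
    rw [map_mul, ← e', ht, map_sum, Finset.mul_sum, mul_one]
  obtain ⟨q, -, hq⟩ := Finset.exists_ne_zero_of_sum_ne_zero (h4.trans_ne one_ne_zero)
  refine ⟨q.out, RingHom.ext fun w => mul_left_cancel₀ hq ?_⟩
  simp only [Finset.sum_mul, RingHom.comp_apply]
  calc ∑ i, y' (u i) * y (σ q.out (v i)) * y' w
      = ∑ i, ∑ j, y' (u j) * y (σ q.out (b (t (v j * w * u i)) * v i)) := by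
        refine Finset.sum_congr rfl fun i _ => ?_
        rw [mul_right_comm, ← map_mul, mul_comm (u i), ← h2 (w * u i), map_sum, Finset.sum_mul]
        refine Finset.sum_congr rfl fun j _ => ?_
        rw [map_mul, map_mul, map_mul, h.chr_fix, e', mul_assoc, mul_assoc]
    _ = _ := by
        rw [Finset.sum_comm]
        refine Finset.sum_congr rfl fun j _ => ?_
        rw [← Finset.mul_sum, ← map_sum, ← map_sum, h3, map_mul, map_mul, mul_assoc]

end

end Pool.Agent.Lib.MP_16ef92_ag.TP
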