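import Mathlib
import Pool.Agent.Lib.MP_16ef92_ag.TP.Chr
import Pool.Agent.Lib.MP_16ef92_ag.AL.PAdm
import Pool.Agent.Lib.MP_16ef92_ag.AL.PKum
import Pool.Agent.Lib.MP_16ef92_ag.AL.PPlc
import Pool.Agent.Lib.MP_16ef92_ag.Ari
import Pool.Agent.Lib.MP_16ef92_ag.AL.EMain
import Pool.Agent.Lib.MP_16ef92_ag.FA.IE2
import Pool.Agent.Lib.MP_16ef92_ag.RS.Pts

set_option autoImplicit false
set_option linter.unusedSectionVars false
set_option linter.unusedVariables false
set_option linter.style.haveILetI false

namespace Pool.Agent.Lib.MP_16ef92_ag.TP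

noncomputable section

open Polynomial AL RS

variable {F : Type} [Field F] [Clos F] [Fintype F] [hq : Fact (Odd (Fintype.card F))]
  (N : F[X]) [hN : Fact (N ≠ 0)]

theorem twa_alg (p : F[X]) : algebraMap F[X] (Om F) p = ev p := rf_eq p

theorem unit_N : IsUnit (algebraMap F[X] (Om F) N) := by
  rw [twa_alg]
  exact (ev_ne hN.out).isUnit

/-- The embedding of `F[t][1/N]`. -/
def emb : Localization.Away N →+* Om F := IsLocalization.Away.lift N (unit_N N)

/-- Integral elements that are fixed by `H`. -/
def lev (H : Subgroup (Gam F)) : Subring (Om F) where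
  carrier := {z | (emb N).IsIntegralElem z ∧ ∀ g ∈ H, g z = z}
  mul_mem' ha hb := ⟨ha.1.mul _ hb.1, fun g hg => by rw [map_mul, ha.2 g hg, hb.2 g hg]⟩
  add_mem' ha hb := ⟨ha.1.add _ hb.1, fun g hg => by rw [map_add, ha.2 g hg, hb.2 g hg]⟩
  one_mem' := ⟨RingHom.isIntegralElem_one _, fun g _ => map_one g⟩
  zero_mem' := ⟨RingHom.isIntegralElem_zero _, fun g _ => map_zero g⟩
  neg_mem' ha := ⟨ha.1.neg _, fun g hg => by rw [map_neg, ha.2 g hg]⟩

/-- Integral elements that are unramified at the good places. -/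
def top : Subring (Om F) where
  carrier := {z | (emb N).IsIntegralElem z ∧ (fam N).Ev fun g => (g : Gam F) z = z}
  mul_mem' ha hb := ⟨ha.1.mul _ hb.1, (ha.2.and hb.2).mono fun g hg => by
    rw [map_mul, hg.1, hg.2]⟩
  add_mem' ha hb := ⟨ha.1.add _ hb.1, (ha.2.and hb.2).mono fun g hg => by
    rw [map_add, hg.1, hg.2]⟩
  one_mem' := ⟨RingHom.isIntegralElem_one _, .of_forall fun g => map_one (g : Gam F)⟩
  zero_mem' := ⟨RingHom.isIntegralElem_zero _, .of_forall fun g => map_zero (g : Gam F)⟩
  neg_mem' ha := ⟨ha.1.neg _, ha.2.mono fun g hg => by rw [map_neg, hg]⟩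

/-- The base ring `k[t][1/N]`. -/
abbrev Bb : Type := lev N (Geo F)

variable {N}

theorem twa_emb (p : F[X]) : emb N (algebraMap F[X] _ p) = ev p :=
  (IsLocalization.Away.lift_eq N (unit_N N) p).trans (twa_alg p)

theorem twa_comp (g : Gam F) : (g : Om F →+* Om F).comp (emb N) = emb N :=
  IsLocalization.ringHom_ext (Submonoid.powers N) (RingHom.ext fun p => by
    rw [RingHom.comp_apply, RingHom.comp_apply, RingHom.comp_apply, twa_emb]
    exact gam_ev g p)

theorem gam_emb (g : Gam F) (r : Localization.Away N) : g (emb N r) = emb N r :=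
  RingHom.congr_fun (twa_comp g) r

theorem int_gam (g : Gam F) {z : Om F} (h : (emb N).IsIntegralElem z) :
    (emb N).IsIntegralElem (g z) := by
  have h1 := h.map (g : Om F →+* Om F)
  rwa [twa_comp] at h1

theorem lev_gam {H : Subgroup (Gam F)} [H.Normal] (g : Gam F) {z : Om F} (h : z ∈ lev N H) :
    g z ∈ lev N H := by
  refine ⟨int_gam g h.1, fun k hk => ?_⟩
  have h1 := congrArg g (h.2 _ (Subgroup.Normal.conj_mem' inferInstance k hk g))
  rwa [AlgEquiv.mul_apply, AlgEquiv.mul_apply, self_apply_inv] at h1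

theorem top_gam (g : Gam F) {z : Om F} (h : z ∈ top N) : g z ∈ top N := by
  refine ⟨int_gam g h.1, (h.2.comp (fam_inv g)).mono fun k hk => ?_⟩
  have h1 := congrArg g hk
  rwa [sgm_val, AlgEquiv.mul_apply, AlgEquiv.mul_apply, self_apply_inv] at h1

theorem lev_le {H H' : Subgroup (Gam F)} (h : H' ≤ H) : lev N H ≤ lev N H' :=
  fun _ hz => ⟨hz.1, fun g hg => hz.2 g (h hg)⟩

theorem lev_top {U : OS F} (hU : AdU N U) : lev N U.H ≤ top N :=
  fun _ hz => ⟨hz.1, _, hU.mem, fun g hg => hz.2 g hg⟩

theorem bb_top : lev N (Geo F) ≤ top N := fun _ hz => ⟨hz.1, .of_forall fun g => hz.2 g g.2⟩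

/-- Restriction of the Galois action to a stable subring. -/
def actS (S : Subring (Om F)) (h : ∀ g : Gam F, ∀ z ∈ S, g z ∈ S) : Gam F →* (S →+* S) where
  toFun g := (g : Om F →+* Om F).restrict S S (h g)
  map_one' := RingHom.ext fun _ => rfl
  map_mul' _ _ := RingHom.ext fun _ => rfl

variable (N)

/-- The action on a level. -/
def actL (H : Subgroup (Gam F)) [H.Normal] : Gam F →* (lev N H →+* lev N H) :=
  actS _ fun g _ => lev_gam g

/-- The action on the top of the tower. -/
def actT : Gam F →* (top N →+* top N) := actS _ fun g _ => top_gam g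

theorem actL_val (H : Subgroup (Gam F)) [H.Normal] (g : Gam F) (z : lev N H) :
    (actL N H g z : Om F) = g z := rfl

theorem actT_val (g : Gam F) (z : top N) : (actT N g z : Om F) = g z := rfl

/-- The base in the top. -/
def aT : Bb N →+* top N := Subring.inclusion bb_top

/-- The base in a level. -/
def bU (U : OS F) : Bb N →+* lev N U.H := Subring.inclusion (lev_le U.le)

/-- The ring over `F` in the base. -/
def i0 : Localization.Away N →+* Bb N :=
  (emb N).codRestrict _ fun r => ⟨RingHom.isIntegralElem_map _, fun g _ => gam_emb g r⟩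

theorem twa_int {z : Om F} (h : IsIntegral F[X] z) : (emb N).IsIntegralElem z := by
  refine RingHom.IsIntegralElem.of_comp (f := algebraMap F[X] _) ?_
  rwa [emb, IsLocalization.Away.lift_comp]

theorem kk_mem (c : kk F) : (c : Om F) ∈ lev N (Geo F) := by
  refine ⟨twa_int N (RingHom.IsIntegralElem.of_comp (f := algebraMap F F[X]) ?_),
    fun g hg => geo_fix hg c⟩
  rw [← IsScalarTower.algebraMap_eq]
  exact (kk_alg c).isIntegral

/-- The constants in the base. -/
def kB : kk F →+* Bb N := (kk F).val.toRingHom.codRestrict _ (kk_mem N)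

/-- The polynomial ring over the constants in the base. -/
def hB : (kk F)[X] →+* Bb N := eval₂RingHom (kB N) (i0 N (algebraMap F[X] _ X))

variable {N}

/-- A level in the top. -/
def dU {U : OS F} (hU : AdU N U) : lev N U.H →+* top N := Subring.inclusion (lev_top hU)

theorem dU_bU {U : OS F} (hU : AdU N U) : (dU hU).comp (bU N U) = aT N := rfl

instance kk_closed : IsAlgClosed (kk F) := kk_algClosed

theorem twa_mem {R : Type} [CommRing R] (f : R →+* Om F) (O : ValuationSubring (Om F))
    (hf : ∀ r, f r ∈ O) {z : Om F} (h : f.IsIntegralElem z) : z ∈ O := by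
  have h1 : IsIntegral O z :=
    RingHom.IsIntegralElem.of_comp (f := f.codRestrict O.toSubring hf) h
  obtain ⟨y, rfl⟩ := IsIntegrallyClosed.algebraMap_eq_of_integral h1
  exact y.2

theorem twa_inv : emb N (IsLocalization.Away.invSelf N) = (ev N)⁻¹ := by
  refine eq_inv_of_mul_eq_one_right ?_
  rw [← twa_emb (N := N), ← map_mul, IsLocalization.Away.mul_invSelf, map_one]

theorem twa_good {c : kk F} (hc : aeval c N ≠ 0) {O : ValuationSubring (Om F)}
    (hO : Over O (some c)) (r : Localization.Away N) : emb N r ∈ O := by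
  obtain ⟨n, a, e⟩ := IsLocalization.Away.surj N r
  have h1 := congrArg (fun w => O.valuation (emb N w)) e
  simp only [map_mul, map_pow, twa_emb, over_ev hO hc, one_pow, mul_one] at h1
  rw [← O.valuation_le_one_iff, h1]
  exact ev_le hO a

/-- The valuative criterion (`iInf_valuationSubring_superset`; a proper valuation subring lies over
a place). -/
theorem int_iff {z : Om F} : (emb N).IsIntegralElem z ↔
    ∀ c : kk F, aeval c N ≠ 0 → ∀ O, Over O (some c) → z ∈ O := by
  refine ⟨fun h c hc O hO => twa_mem _ O (twa_good hc hO) h, fun h => ?_⟩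
  have h1 : z ∈ (integralClosure (Subring.closure (Set.range (emb N))) (Om F)).toSubring := by
    rw [← iInf_valuationSubring_superset, Subring.mem_iInf]
    rintro ⟨O, hO⟩
    change z ∈ O
    by_cases h0 : O = ⊤
    · rw [h0]
      trivial
    obtain ⟨x, hx⟩ := pplc_over O h0
    cases x with
    | none =>
      refine (((val_lt_one_iff O _).1 hx).elim (pl_ne none) fun h2 => h2 ?_).elim
      have h3 : emb N (algebraMap F[X] _ X) ∈ O := hO ⟨_, rfl⟩
      rwa [twa_emb, ev, aeval_X, ← inv_inv (tt F)] at h3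
    | some c =>
      refine h c (fun hc => ?_) O hx
      have h2 := ev_sub hx N
      rw [hc, ZeroMemClass.coe_zero, sub_zero] at h2
      refine ((val_lt_one_iff O _).1 h2).elim (ev_ne hN.out) fun h3 => h3 ?_
      rw [← twa_inv]
      exact hO ⟨_, rfl⟩
  have h2 : Subring.closure (Set.range (emb N)) = (emb N).range :=
    Subring.closure_eq (emb N).range
  rw [h2] at h1
  obtain ⟨p, hp, e⟩ : IsIntegral (emb N).range z := h1
  obtain ⟨q, rfl, -, hq⟩ := lifts_and_degree_eq_and_monic
    (mem_lifts_of_surjective (emb N).rangeRestrict_surjective p) hp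
  exact ⟨q, hq, by rwa [eval₂_map] at e⟩

theorem twB_norm {R L : Type} [CommRing R] [IsDomain R] [IsIntegrallyClosed R] [Field L]
    {g : R →+* L} (hg : Function.Injective g) (p r : R) (h : g.IsIntegralElem (g p / g r)) :
    ∃ a, g a = g p / g r := by
  letI := g.toAlgebra
  let φ : FractionRing R →ₐ[R] L := IsFractionRing.liftAlgHom (g := Algebra.ofId R L) hg
  have e : φ (algebraMap R _ p / algebraMap R _ r) = g p / g r := by
    rw [map_div₀, φ.commutes, φ.commutes]
    rfl
  rw [← e] at h ⊢
  obtain ⟨a, ha⟩ := IsIntegrallyClosed.isIntegral_iff.1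
    ((isIntegral_algHom_iff φ φ.toRingHom.injective).1 h)
  exact ⟨a, by rw [← ha]; exact (φ.commutes a).symm⟩

theorem twB_emb (p : F[X]) : emb N (algebraMap F[X] _ p) = algebraMap F[X] (Om F) p :=
  IsLocalization.Away.lift_eq N (unit_N N) p

theorem twB_val (p : (kk F)[X]) : (hB N p : Om F) = aeval (tt F) p := by
  have : (lev N (Geo F)).subtype.comp (hB N) = (aeval (tt F) : (kk F)[X] →ₐ[kk F] Om F) := by
    refine Polynomial.ringHom_ext (fun c => ?_) ?_
    · rw [RingHom.comp_apply, hB, coe_eval₂RingHom, eval₂_C, RingHom.coe_coe, aeval_C]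
      rfl
    · rw [RingHom.comp_apply, hB, coe_eval₂RingHom, eval₂_X, RingHom.coe_coe, aeval_X]
      exact twB_emb X
  exact RingHom.congr_fun this p

theorem twB_map (p : F[X]) :
    aeval (tt F) (p.map (algebraMap F (kk F))) = algebraMap F[X] (Om F) p := by
  rw [aeval_map_algebraMap]
  exact (rf_eq p).symm

theorem twB_comp : (hB N).comp (mapRingHom (algebraMap F (kk F))) =
    (i0 N).comp (algebraMap F[X] (Localization.Away N)) :=
  RingHom.ext fun p => Subtype.ext ((twB_val _).trans ((twB_map p).trans (twB_emb p).symm))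

/-- An element fixed by `Geo F` lies in `k(t)` (`fix_kf`), and `k[t][1/N]` is normal. -/
theorem bb_loc : @IsLocalization.Away _ _ (N.map (algebraMap F (kk F))) (Bb N) _
    (hB N).toAlgebra := by
  letI := (hB N).toAlgebra
  have hi : Function.Injective (aeval (tt F) : (kk F)[X] →ₐ[kk F] Om F) :=
    transcendental_iff_injective.1 tt_trans
  refine IsLocalization.Away.mk _ ?_ (fun s => ?_) fun a b h => ⟨0, ?_⟩
  · have := RingHom.congr_fun (twB_comp (N := N)) N
    exact this ▸ (IsLocalization.Away.algebraMap_isUnit N).map (i0 N)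
  · letI := (emb N).toAlgebra
    haveI : IsScalarTower F[X] (Localization.Away N) (Om F) :=
      IsScalarTower.of_algebraMap_eq fun p => (twB_emb p).symm
    obtain ⟨⟨_, n, rfl⟩, hm⟩ := IsIntegral.exists_multiple_integral_of_isLocalization
      (Submonoid.powers N) (Rₘ := Localization.Away N) (s : Om F) s.2.1
    obtain ⟨p, r, e⟩ := (IntermediateField.mem_adjoin_simple_iff (kk F) (s : Om F)).1
      (fix_kf (IntermediateField.mem_adjoin_simple_self _ _) fun g hg _ => s.2.2 g hg)
    have e1 : algebraMap F[X] (Om F) (N ^ n) * (s : Om F) =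
        aeval (tt F) (N.map (algebraMap F (kk F)) ^ n * p) / aeval (tt F) r := by
      rw [e, map_mul, map_pow, map_pow, twB_map, mul_div_assoc]
    have h2 : RingHom.IsIntegralElem ((aeval (tt F) : (kk F)[X] →ₐ[kk F] Om F) : (kk F)[X] →+* Om F)
        (algebraMap F[X] (Om F) (N ^ n) * (s : Om F)) := by
      refine RingHom.IsIntegralElem.of_comp (f := mapRingHom (algebraMap F (kk F))) ?_
      rw [show ((aeval (tt F) : (kk F)[X] →ₐ[kk F] Om F) : (kk F)[X] →+* Om F).comp
        (mapRingHom (algebraMap F (kk F))) = algebraMap F[X] (Om F) from RingHom.ext twB_map]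
      exact hm
    rw [e1] at h2
    obtain ⟨a, ha⟩ := twB_norm hi _ _ h2
    refine ⟨n, a, Subtype.ext ?_⟩
    change (s : Om F) * (hB N (N.map (algebraMap F (kk F))) : Om F) ^ n = hB N a
    rw [twB_val, twB_val, twB_map, mul_comm, ← map_pow, e1]
    exact ha.symm
  · rw [hi ((twB_val a).symm.trans ((congrArg Subtype.val h).trans (twB_val b)))]

theorem hB_etale : (hB N).Etale := by
  letI := (hB N).toAlgebra
  haveI := bb_loc (N := N)
  exact Algebra.Etale.of_isLocalizationAway (N.map (algebraMap F (kk F)))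

theorem hB_C : (hB N).comp C = kB N := by
  exact RingHom.ext fun c => eval₂_C _ _

instance bb_noeth : IsNoetherianRing (Bb N) := by
  letI := (hB N).toAlgebra
  haveI := bb_loc (N := N)
  exact IsLocalization.isNoetherianRing (Submonoid.powers (N.map (algebraMap F (kk F)))) _
    inferInstance

/-- The base is the base change to the constants. -/
theorem po_bb : FA.PO (algebraMap F (kk F)) (algebraMap F (Localization.Away N)) (kB N)
    (i0 N) := by
  letI := (hB N).toAlgebra
  haveI := bb_loc (N := N)
  have hC : ∀ c : F, algebraMap F (Localization.Away N) c = algebraMap F[X] _ (C c) := fun c =>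
    IsScalarTower.algebraMap_apply F F[X] _ c
  refine ⟨RingHom.ext fun c => ?_, fun Z _ u v e => ?_, fun Z _ w w' h1 h2 => ?_⟩
  · have := RingHom.congr_fun (twB_comp (N := N)) (C c)
    rw [RingHom.comp_apply, coe_mapRingHom, map_C] at this
    rw [RingHom.comp_apply, RingHom.comp_apply, hC, ← hB_C]
    exact this
  · have h0 : (eval₂RingHom u (v (algebraMap F[X] _ X))).comp (mapRingHom (algebraMap F (kk F))) =
        v.comp (algebraMap F[X] (Localization.Away N)) := by
      refine Polynomial.ringHom_ext (fun c => ?_) ?_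
      · rw [RingHom.comp_apply, coe_mapRingHom, map_C, coe_eval₂RingHom, eval₂_C,
          RingHom.comp_apply, ← hC]
        exact RingHom.congr_fun e c
      · rw [RingHom.comp_apply, coe_mapRingHom, map_X, coe_eval₂RingHom, eval₂_X,
          RingHom.comp_apply]
    have hu : IsUnit (eval₂RingHom u (v (algebraMap F[X] _ X)) (N.map (algebraMap F (kk F)))) :=
      (RingHom.congr_fun h0 N) ▸ (IsLocalization.Away.algebraMap_isUnit N).map v
    have h3 : (IsLocalization.Away.lift (S := Bb N) _ hu).comp (hB N) = _ :=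
      IsLocalization.Away.lift_comp _ hu
    refine ⟨IsLocalization.Away.lift _ hu, ?_,
      IsLocalization.ringHom_ext (Submonoid.powers N) ?_⟩
    · rw [← hB_C, ← RingHom.comp_assoc, h3]
      exact RingHom.ext fun c => eval₂_C _ _
    · rw [RingHom.comp_assoc, ← twB_comp, ← RingHom.comp_assoc, h3, h0]
  · refine IsLocalization.ringHom_ext (Submonoid.powers (N.map (algebraMap F (kk F))))
      (Polynomial.ringHom_ext (fun c => ?_) ?_)
    · rw [← hB_C] at h1
      exact RingHom.congr_fun h1 c
    · have : hB N X = i0 N (algebraMap F[X] _ X) := eval₂_X _ _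
      change w (hB N X) = w' (hB N X)
      rw [this]
      exact RingHom.congr_fun h2 _

/-- Every element of the closure has a denominator in the base ring. -/
theorem exists_den (z : Om F) : ∃ r : F[X], r ≠ 0 ∧
    (emb N).IsIntegralElem (algebraMap F[X] (Om F) r * z) := by
  obtain ⟨r, hr, h⟩ := ((IsFractionRing.isAlgebraic_iff F[X] (RatFunc F) (Om F)).2
    (Algebra.IsAlgebraic.isAlgebraic (R := RatFunc F) z)).exists_integral_multiple
  exact ⟨r, hr, twa_int N (by rwa [Algebra.smul_def] at h)⟩

theorem twa_normal (S : Subring (Om F)) (h1 : ∀ s ∈ S, (emb N).IsIntegralElem s)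
    (h2 : ∀ a ∈ S, ∀ b ∈ S, (emb N).IsIntegralElem (a / b) → a / b ∈ S) :
    IsIntegrallyClosed S := by
  rw [isIntegrallyClosed_iff (FractionRing S)]
  intro x hx
  let f : FractionRing S →+* Om F := IsFractionRing.lift (g := S.subtype) Subtype.val_injective
  have hf : f.comp (algebraMap S _) = S.subtype :=
    RingHom.ext fun s => IsFractionRing.lift_algebraMap Subtype.val_injective s
  have hf' : ∀ s : S, f (algebraMap S _ s) = s := RingHom.congr_fun hf
  obtain ⟨a, b, -, rfl⟩ := IsFractionRing.div_surjective (A := S) x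
  have h3 := RingHom.IsIntegralElem.map hx f
  rw [hf, map_div₀, hf', hf'] at h3
  refine ⟨⟨a / b, h2 _ a.2 _ b.2 (int_iff.2 fun c hc O hO => twa_mem S.subtype O
    (fun s => int_iff.1 (h1 s s.2) c hc O hO) h3)⟩, f.injective ?_⟩
  rw [map_div₀, hf', hf', hf']

instance lev_normal (H : Subgroup (Gam F)) : IsIntegrallyClosed (lev N H) :=
  twa_normal _ (fun _ h => h.1) fun a ha b hb h =>
    ⟨h, fun g hg => by rw [map_div₀, ha.2 g hg, hb.2 g hg]⟩

instance top_normal : IsIntegrallyClosed (top N) :=
  twa_normal _ (fun _ h => h.1) fun a ha b hb h =>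
    ⟨h, (ha.2.and hb.2).mono fun g hg => by rw [map_div₀, hg.1, hg.2]⟩

theorem twa_cnt : Countable (Om F) := by
  have h1 : Countable F[X] := Cardinal.mk_le_aleph0_iff.1
    (cardinalMk_le_max.trans (max_le Cardinal.mk_le_aleph0 le_rfl))
  have h2 : Function.Injective (algebraMap F[X] (Om F)) :=
    (algebraMap (RatFunc F) (Om F)).injective.comp (IsFractionRing.injective F[X] (RatFunc F))
  have h3 : Module.IsTorsionFree F[X] (Om F) := Module.isTorsionFree_iff_algebraMap_injective.2 h2
  exact Set.countable_univ_iff.1 ((Algebraic.countable F[X] (Om F)).mono fun z _ =>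
    (IsFractionRing.isAlgebraic_iff F[X] (RatFunc F) (Om F)).2
      (Algebra.IsAlgebraic.isAlgebraic (R := RatFunc F) z))

theorem good_sub [Bg] (p : ℕ) [CharP F p] [CharP OO p] (S : Subring (Om F)) : Good S := by
  have : Countable (Om F) := twa_cnt
  refine good_of_countable p (Subtype.ext ?_) (CharP.char_ne_zero_of_finite F p)
  rw [SubringClass.coe_natCast, ← map_natCast (algebraMap F (Om F)), CharP.cast_eq_zero, map_zero,
    ZeroMemClass.coe_zero]

end

end Pool.Agent.Lib.MP_16ef92_ag.TP
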