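import Mathlib
import Pool.Agent.Lib.MP_16ef92_ag.TP.Tw
import Pool.Agent.Lib.MP_16ef92_ag.CV.GT
import Pool.Agent.Lib.MP_16ef92_ag.AL.PPlc

set_option autoImplicit false
set_option linter.unusedSectionVars false
set_option linter.unusedVariables false
set_option linter.style.haveILetI false

namespace Pool.Agent.Lib.MP_16ef92_ag.TP

noncomputable section

open Polynomial AL RS

variable {F : Type} [Field F] [Clos F] [Fintype F] [hq : Fact (Odd (Fintype.card F))]
  {N : F[X]} [hN : Fact (N ≠ 0)] {U : OS F}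

theorem ta_down {L : Type} [Field L] (S : Subring L) {f q : L[X]} {z : L}
    (e : f = (X - C z) * q) (hf : ∀ i, f.coeff i ∈ S) (hz : z ∈ S) (i : ℕ) : q.coeff i ∈ S := by
  have key : ∀ k i, q.natDegree < i + k → q.coeff i ∈ S := by
    intro k
    induction k with
    | zero => exact fun i hi => coeff_eq_zero_of_natDegree_lt hi ▸ S.zero_mem
    | succ k ih =>
      intro i hi
      have h1 := hf (i + 1)
      rw [e, sub_mul, coeff_sub, coeff_X_mul, coeff_C_mul] at h1
      simpa using S.add_mem h1 (S.mul_mem hz (ih (i + 1) (by omega)))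
  exact key (q.natDegree + 1) i (by omega)

theorem ta_zero {L : Type} [Field L] {f q : L[X]} {z : L} (e : f = (X - C z) * q) :
    f.coeff 0 = -(z * q.coeff 0) := by
  rw [e, sub_mul, coeff_sub, coeff_X_mul_zero, coeff_C_mul, zero_sub]

theorem ta_succ {L : Type} [Field L] {f q : L[X]} {z : L} (e : f = (X - C z) * q) (i : ℕ) :
    f.coeff (i + 1) = q.coeff i - z * q.coeff (i + 1) := by
  rw [e, sub_mul, coeff_sub, coeff_X_mul, coeff_C_mul]

theorem ta_up {L : Type} [Field L] (S : Subring L) {f q : L[X]} {z : L}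
    (e : f = (X - C z) * q) (hf : ∀ i, f.coeff i ∈ S) (h0 : z ≠ 0) (hz : z⁻¹ ∈ S) (i : ℕ) :
    ∃ a ∈ S, q.coeff i = z⁻¹ * a := by
  induction i with
  | zero =>
    refine ⟨_, S.neg_mem (hf 0), ?_⟩
    rw [ta_zero e, neg_neg, inv_mul_cancel_left₀ h0]
  | succ i ih =>
    obtain ⟨a, ha, h⟩ := ih
    refine ⟨_, S.sub_mem (h ▸ S.mul_mem hz ha : q.coeff i ∈ S) (hf (i + 1)), ?_⟩
    rw [ta_succ e, sub_sub_cancel, inv_mul_cancel_left₀ h0]

theorem ta_val {L : Type} [Field L] (O : ValuationSubring L) {f q : L[X]} {z : L}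
    (e : f = (X - C z) * q) (hf : ∀ i, f.coeff i ∈ O) (i : ℕ) : q.coeff i ∈ O := by
  by_cases hz : z ∈ O
  · exact ta_down O.toSubring e hf hz i
  · have h1 := (O.mem_or_inv_mem z).resolve_left hz
    obtain ⟨a, ha, h⟩ := ta_up O.toSubring e hf (fun h0 => hz (h0 ▸ O.zero_mem)) h1 i
    exact h ▸ O.toSubring.mul_mem h1 ha

theorem ta_emb (r : F[X]) : emb N (algebraMap F[X] _ r) = algebraMap F[X] (Om F) r :=
  IsLocalization.Away.lift_eq N (unit_N N) r

theorem ta_lev (H : Subgroup (Gam F)) (r : Localization.Away N) : emb N r ∈ lev N H :=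
  ⟨RingHom.isIntegralElem_map _, fun g _ => gam_emb g r⟩

theorem ta_poly (H : Subgroup (Gam F)) (r : F[X]) : algebraMap F[X] (Om F) r ∈ lev N H :=
  ta_emb (N := N) r ▸ ta_lev H _

theorem ta_inj : Function.Injective (algebraMap F[X] (Om F)) :=
  (algebraMap (RatFunc F) (Om F)).injective.comp (IsFractionRing.injective F[X] (RatFunc F))

theorem ta_prim (z : Om F) : ∃ p : F[X][X], p.IsPrimitive ∧ aeval z p = 0 := by
  classical
  obtain ⟨p, hp0, hp⟩ := (IsFractionRing.isAlgebraic_iff F[X] (RatFunc F) (Om F)).2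
    (Algebra.IsAlgebraic.isAlgebraic (R := RatFunc F) z)
  refine ⟨p.primPart, p.isPrimitive_primPart, ?_⟩
  rw [p.eq_C_content_mul_primPart, map_mul, aeval_C, mul_eq_zero, map_eq_zero_iff _ ta_inj,
    content_eq_zero_iff] at hp
  exact hp.resolve_left hp0

theorem ta_agree {O O' : ValuationSubring (Om F)} (h : ∀ z ∈ lev N U.H, z ∈ O)
    (h' : ∀ z ∈ lev N U.H, z ∈ O')
    (e : ∀ z ∈ lev N U.H, O'.valuation z < 1 → O.valuation z < 1) (z : U.K)
    (hz : (z : Om F) ∈ O) : (z : Om F) ∈ O' := by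
  by_contra hz'
  obtain ⟨p, hp, h0⟩ := ta_prim (z : Om F)
  obtain ⟨q, hq⟩ : X - C (z : Om F) ∣ p.map (algebraMap F[X] (Om F)) :=
    dvd_iff_isRoot.2 (by rw [IsRoot.def, eval_map_algebraMap, h0])
  have hc : ∀ i, (p.map (algebraMap F[X] (Om F))).coeff i ∈ lev N U.H := fun i => by
    rw [coeff_map]
    exact ta_poly _ _
  have hq1 : ∀ i, q.coeff i ∈ lev N U.H := fun i =>
    ⟨int_iff.2 fun c hc' O₁ hO => ta_val O₁ hq (fun j => int_iff.1 (hc j).1 c hc' O₁ hO) i,
      ta_down U.K.toSubalgebra.toSubring hq (fun j => (hc j).2) z.2 i⟩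
  have hz0 : (z : Om F) ≠ 0 := fun e0 => hz' (e0 ▸ O'.zero_mem)
  have hv : O'.valuation (z : Om F)⁻¹ < 1 :=
    (val_lt_one_iff O' _).2 (Or.inr (by rwa [inv_inv]))
  have hq2 : ∀ i, O.valuation (q.coeff i) < 1 := fun i => by
    refine e _ (hq1 i) ?_
    obtain ⟨a, ha, h1⟩ := ta_up O'.toSubring hq (fun j => h' _ (hc j)) hz0
      ((O'.valuation_le_one_iff _).1 hv.le) i
    rw [h1, map_mul]
    exact mul_lt_one_of_lt_of_le hv ((O'.valuation_le_one_iff _).2 ha)
  have hq3 : ∀ i, O.valuation ((z : Om F) * q.coeff i) < 1 := fun i => by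
    rw [mul_comm, map_mul]
    exact mul_lt_one_of_lt_of_le (hq2 i) ((O.valuation_le_one_iff _).2 hz)
  have hf : ∀ i, O.valuation (algebraMap F[X] (Om F) (p.coeff i)) < 1 := fun i => by
    rw [← coeff_map]
    rcases i with _ | i
    · rw [ta_zero hq, Valuation.map_neg]
      exact hq3 0
    · rw [ta_succ hq]
      exact Valuation.map_sub_lt _ (hq2 i) (hq3 (i + 1))
  let φ : F[X] →+* O := (algebraMap F[X] (Om F)).codRestrict O.toSubring
    fun r => h _ (ta_poly _ r)
  have hI : ∀ r, r ∈ (IsLocalRing.maximalIdeal O).comap φ ↔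
      O.valuation (algebraMap F[X] (Om F) r) < 1 := fun r => O.valuation_lt_one_iff (φ r)
  obtain ⟨d, hd⟩ := (IsPrincipalIdealRing.principal
    ((IsLocalRing.maximalIdeal O).comap φ)).principal
  have hu : IsUnit d := hp d ((C_dvd_iff_dvd_coeff d p).2 fun i => by
    rw [← Ideal.mem_span_singleton, ← Ideal.submodule_span_eq, ← hd, hI]
    exact hf i)
  have h1 : (1 : F[X]) ∈ (IsLocalRing.maximalIdeal O).comap φ := by
    rw [hd, Ideal.submodule_span_eq, Ideal.mem_span_singleton]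
    exact hu.dvd
  rw [hI, map_one, map_one] at h1
  exact h1.ne rfl

/-- Two valuation subrings with the same centre on a level agree on the fixed field: the level is
a Dedekind domain with fraction field `U.K` (`IsIntegralClosure.isDedekindDomain`), or argue with
`OS.trans`. -/
theorem val_agree {O O' : ValuationSubring (Om F)} (h : ∀ z ∈ lev N U.H, z ∈ O)
    (h' : ∀ z ∈ lev N U.H, z ∈ O')
    (e : ∀ z ∈ lev N U.H, O.valuation z < 1 ↔ O'.valuation z < 1) (z : U.K) :
    (z : Om F) ∈ O ↔ (z : Om F) ∈ O' :=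
  ⟨ta_agree h h' (fun w hw => (e w hw).2) z, ta_agree h' h (fun w hw => (e w hw).1) z⟩

theorem ta_over {H : Subgroup (Gam F)} {O : ValuationSubring (Om F)}
    (h : ∀ z ∈ lev N H, z ∈ O) (hO : O ≠ ⊤) : ∃ c : kk F, aeval c N ≠ 0 ∧ Over O (some c) := by
  have hev : ∀ r : F[X], algebraMap F[X] (Om F) r = aeval (tt F) r := fun r => rf_eq r
  obtain ⟨x, hx⟩ := pplc_over O hO
  rcases x with _ | c
  · have h1 := h _ (ta_poly H X)
    rw [hev, aeval_X] at h1
    rcases (val_lt_one_iff O _).1 hx with e | e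
    · exact (pl_ne _ e).elim
    · exact (e (by rwa [pl, inv_inv])).elim
  · refine ⟨c, fun h0 => ?_, hx⟩
    have h1 := poly_sub O hx (N.map (algebraMap F (kk F)))
    rw [eval_map_algebraMap, h0, aeval_map_algebraMap, ← hev] at h1
    have h2 : O.valuation (algebraMap F[X] (Om F) N) < 1 := by simpa using h1
    have h3 := (O.valuation_le_one_iff _).2 (h _ (ta_lev H (IsLocalization.Away.invSelf N)))
    have h4 := mul_lt_one_of_lt_of_le h2 h3
    rw [← map_mul, ← ta_emb (N := N), ← map_mul, IsLocalization.Away.mul_invSelf, map_one,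
      map_one] at h4
    exact h4.ne rfl

/-- If the kernel is zero, `g` fixes `U.K` (`exists_den`, `OS.cld`).  Otherwise take `O` with
centre the kernel (`Ideal.image_subset_nonunits_valuationSubring` or a local subring); `O` and
`cm g O` agree on `U.K`; `OS.trans` gives `h ∈ U.H` with `h⁻¹ g` or `g h⁻¹` in `Ine O ≤ U.H`. -/
theorem lev_free (hU : AdU N U) {K : Type} [Field K] (y : lev N U.H →+* K) {g : Gam F}
    (hg : g ∈ Geo F) (e : ∀ (z : lev N U.H) (h : g z ∈ lev N U.H), y ⟨g z, h⟩ = y z) :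
    g ∈ U.H := by
  haveI := hU.normal
  obtain ⟨O, h1, h2⟩ := Ideal.image_subset_nonunits_valuationSubring (RingHom.ker y)
    (RingHom.ker_ne_top y)
  have h3 : ∀ z ∈ lev N U.H, O.valuation (g z - z) < 1 := fun z hz =>
    O.mem_nonunits_iff.1 (h2 ⟨⟨g z, lev_gam g hz⟩ - ⟨z, hz⟩, by
      rw [SetLike.mem_coe, RingHom.mem_ker, map_sub, e ⟨z, hz⟩, sub_self], rfl⟩)
  by_cases hO : O = ⊤
  · refine U.cld g fun z hz => ?_
    obtain ⟨r, hr, hi⟩ := exists_den (N := N) z
    have h4 := h3 _ ⟨hi, fun k hk => by rw [map_mul, (ta_poly (N := N) U.H r).2 k hk, hz k hk]⟩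
    rw [val_lt_one_iff, hO, map_mul, (ta_poly (N := N) ⊤ r).2 g trivial, ← mul_sub] at h4
    have h5 := h4.resolve_right fun h => h (ValuationSubring.mem_top _)
    exact sub_eq_zero.1 ((mul_eq_zero.1 h5).resolve_left
      fun h => hr ((map_eq_zero_iff _ ta_inj).1 h))
  obtain ⟨c, hc, hx⟩ := ta_over (fun z hz => h1 hz) hO
  obtain ⟨k, hk, h4⟩ := U.trans (val_agree (N := N) (O := O) (O' := cm g O) (fun z hz => h1 hz)
    (fun z hz => h1 (lev_gam g hz)) fun z hz => by
      rw [val_lt_of_iff (g := g) (O := cm g O) (O' := O) fun z => mem_cm]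
      constructor
      · intro h
        simpa using Valuation.map_add_lt _ (h3 z hz) h
      · intro h
        simpa using Valuation.map_sub_lt _ h (h3 z hz))
  exact (U.H.mul_mem_cancel_right hk).1 (hU.ine c hc O hx (g * k)
    ⟨(Geo F).mul_mem hg (U.le hk), fun z => (h4 z).symm⟩)

theorem gal_lev (hU : AdU N U) : haveI := hU.normal
    Gal (bU N U) ((actL N U.H).comp (Geo F).subtype) (U.H.subgroupOf (Geo F)) := by
  haveI := hU.normal
  refine ⟨hU.normal.subgroupOf _, U.finiteIndex, fun g hg w => Subtype.ext (w.2.2 g hg),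
    Subring.inclusion_injective _, fun w => ⟨fun h => ?_, ?_⟩, fun g hg => ?_⟩
  · exact ⟨⟨w, w.2.1, fun g hg => congrArg Subtype.val (h ⟨g, hg⟩)⟩, rfl⟩
  · rintro ⟨r, rfl⟩ g
    exact Subtype.ext (r.2.2 g g.2)
  · by_contra hne
    obtain ⟨m, hm, hle⟩ := Ideal.exists_le_maximal _ hne
    letI := Ideal.Quotient.field m
    exact hg (lev_free hU (Ideal.Quotient.mk m) g.2 fun z h =>
      Ideal.Quotient.eq.2 (hle (Ideal.subset_span ⟨z, rfl⟩)))

theorem bU_etale (hU : AdU N U) : (bU N U).Etale := (gal_lev hU).etale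

/-- Finitely many elements of the top lie in a level. -/
theorem exists_lev {ι : Type} [Finite ι] (z : ι → top N) {M : Subgroup (Geo F)}
    (hM : M ∈ (fam N).S) : ∃ U : OS F, AdU N U ∧ U.H.subgroupOf (Geo F) ≤ M ∧
      ∀ i, (z i : Om F) ∈ lev N U.H := by
  obtain ⟨_, ⟨U, hU, rfl⟩, h⟩ := (Fam.ev_mem hM).and (Fam.Ev.forall fun i => (z i).2.2)
  exact ⟨U, hU, fun g hg => (h g hg).1, fun i =>
    ⟨(z i).2.1, fun g hg => (h ⟨g, U.le hg⟩ hg).2 i⟩⟩

/-- Maps from algebras of finite type factor through a level. -/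
theorem fac_lev {W : Type} [CommRing W] {b : Bb N →+* W} (hb : b.FiniteType) (d : W →+* top N)
    (hd : d.comp b = aT N) {M : Subgroup (Geo F)} (hM : M ∈ (fam N).S) :
    ∃ (U : OS F) (hU : AdU N U) (e : W →+* lev N U.H), U.H.subgroupOf (Geo F) ≤ M ∧
      e.comp b = bU N U ∧ (dU hU).comp e = d := by
  letI := b.toAlgebra
  obtain ⟨s, hs⟩ := hb.out
  obtain ⟨U, hU, hle, hz⟩ := exists_lev (fun w : s => d w) hM
  have hb' : ∀ r, (d (b r) : Om F) = r := fun r => congrArg Subtype.val (RingHom.congr_fun hd r)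
  have hall : ∀ w, (d w : Om F) ∈ lev N U.H := fun w => by
    have hw : w ∈ Algebra.adjoin (Bb N) (s : Set W) := hs ▸ Algebra.mem_top
    induction hw using Algebra.adjoin_induction with
    | mem w hw => exact hz ⟨w, hw⟩
    | algebraMap r => exact (hb' r).symm ▸ lev_le U.le r.2
    | add u v _ _ hu hv => rw [map_add]; exact add_mem hu hv
    | mul u v _ _ hu hv => rw [map_mul]; exact mul_mem hu hv
  exact ⟨U, hU, ((top N).subtype.comp d).codRestrict _ hall, hle,
    RingHom.ext fun r => Subtype.ext (hb' r), RingHom.ext fun _ => rfl⟩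

theorem ie_aT : FA.IE (aT N) := by
  obtain ⟨M, hM⟩ := (fam N).ne
  refine FA.IE.of_union fun n r => ?_
  obtain ⟨U, hU, -, hz⟩ := exists_lev r hM
  exact ⟨⟨_, bU N U, dU hU, bU_etale hU, rfl⟩, Subring.inclusion_injective (lev_top hU),
    fun k => ⟨⟨r k, hz k⟩, rfl⟩⟩

theorem ie_dU (hU : AdU N U) : FA.IE (dU hU) :=
  ie_aT.stage ⟨_, bU N U, dU hU, bU_etale hU, rfl⟩

theorem tw2b_closed {K : Type} [Field K] (y y' : top N →+* K) (z : top N) :
    IsClosed {g : Gam F | g ∈ Geo F ∧ y' z = y (actT N g z)} := by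
  rw [← isOpen_compl_iff, isOpen_iff_mem_nhds]
  intro g hg
  by_cases h1 : g ∈ Geo F
  · filter_upwards [pfld_nhds g z] with k hk h2
    exact hg ⟨h1, h2.2.trans (congrArg y (Subtype.ext hk))⟩
  · obtain ⟨c, hc⟩ := not_forall.1 fun h => h1 (mem_geo h)
    filter_upwards [pfld_nhds g c] with k hk h2
    exact hc (hk.symm.trans (geo_fix h2.1 c))

/-- For each level the set of `g ∈ Geo F` with `y' = y ∘ g` on the level is nonempty
(`Gal.orbit`) and closed; these sets are directed; `Geo F` is compact. -/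
theorem top_trans {K : Type} [Field K] (y y' : top N →+* K)
    (e : y.comp (aT N) = y'.comp (aT N)) : ∃ g ∈ Geo F, y' = y.comp (actT N g) := by
  obtain ⟨M, hM⟩ := (fam N).ne
  obtain ⟨g, -, hg⟩ := (isCompact_univ (X := Gam F)).inter_iInter_nonempty _ (tw2b_closed y y')
    fun s => by
      obtain ⟨U, hU, -, hz⟩ := exists_lev (fun z : s => z.1) hM
      obtain ⟨g, hg⟩ := (gal_lev hU).orbit (y.comp (dU hU)) (y'.comp (dU hU)) e
      exact ⟨g, trivial, Set.mem_iInter₂.2 fun z hs =>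
        ⟨g.2, RingHom.congr_fun hg ⟨z, hz ⟨z, hs⟩⟩⟩⟩
  rw [Set.mem_iInter] at hg
  exact ⟨g, (hg 0).1, RingHom.ext fun z => (hg z).2⟩

theorem tw2b_int : ((aT N).comp (i0 N)).IsIntegral := fun z =>
  RingHom.IsIntegralElem.of_map (g := (top N).subtype) Subtype.val_injective z.2.1

variable [Bg]

theorem tw2b_sur {V W : Type} [CommRing V] [CommRing W] {b : V →+* W} (h1 : b.IsIntegral)
    (h2 : Function.Injective b) : Sur b := fun y => by
  obtain ⟨q, hq⟩ := h1.comap_surjective h2 ⟨RingHom.ker y, RingHom.ker_isPrime y⟩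
  obtain ⟨z, hz, -⟩ := pnt_lift_int h1 y q.1 q.2 (congrArg PrimeSpectrum.asIdeal hq)
  exact ⟨z, hz⟩

theorem sur_aT : Sur (aT N) :=
  tw2b_sur (RingHom.IsIntegral.tower_top _ _ tw2b_int) (Subring.inclusion_injective _)

theorem sur_dU (hU : AdU N U) : Sur (dU hU) :=
  tw2b_sur (RingHom.IsIntegral.tower_top ((bU N U).comp (i0 N)) _ tw2b_int)
    (Subring.inclusion_injective _)

/-- The tower. -/
theorem gt_top (hl : ∀ (G : Sys (Bb N)), ∀ s ∈ G.S (aT N), ∃ (U : FA.Stage (aT N))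
    (t : Pnt U.W → G.A), t ∈ G.S U.a ∧ s = rs U.d t) :
    CV.GT (aT N) ((actT N).comp (Geo F).subtype) (fam N) := by
  refine ⟨fun g => RingHom.ext fun r => Subtype.ext (r.2.2 g g.2), sur_aT, fun y y' e => ?_,
    fun M hM W _ b d hb hd => ?_, fun G s hs => ?_⟩
  · obtain ⟨g, hg, h⟩ := top_trans y y' e
    exact ⟨⟨g, hg⟩, h⟩
  · obtain ⟨U, hU, e, hle, h1, h2⟩ :=
      fac_lev (RingHom.FiniteType.of_finitePresentation (FA.etale_fp hb)) d hd hM
    haveI := hU.normal
    refine ⟨⟨lev N U.H, bU N U, dU hU, fun g => actL N U.H g, bU_etale hU, rfl, sur_dU hU,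
      fun g => RingHom.ext fun _ => rfl, fun g => RingHom.ext fun r => Subtype.ext (r.2.2 g g.2),
      ⟨_, hU.mem, fun g hg => RingHom.ext fun z => Subtype.ext (z.2.2 g hg)⟩⟩, e, h1, h2,
      fun y g hg => hle (lev_free hU (y.comp (dU hU)) g.2 fun z _ => RingHom.congr_fun hg z)⟩
  · obtain ⟨U, t, ht, e⟩ := hl G s hs
    exact ⟨U.W, _, U.a, U.d, t, U.et, U.comm, ht, e⟩

end

end Pool.Agent.Lib.MP_16ef92_ag.TP
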