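import Mathlib
import Pool.Agent.Lib.MP_16ef92_ag.TP.Tw

set_option autoImplicit false
set_option linter.unusedSectionVars false
set_option linter.unusedVariables false
set_option linter.style.haveILetI false

namespace Pool.Agent.Lib.MP_16ef92_ag.TP

noncomputable section

open Polynomial AL

variable {F : Type} [Field F] [Clos F] [Fintype F] [hq : Fact (Odd (Fintype.card F))]
  {N : F[X]} [hN : Fact (N ≠ 0)] {U : OS F}

theorem tw3_val {S : Subring (Om F)} {O : ValuationSubring (Om F)} (hS : ∀ x ∈ S, x ∈ O)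
    {m : ℕ} (hm : m ≠ 0) {f : S} {I : Ideal S} (hI : I ^ m = Ideal.span {f}) {z : Om F}
    (h0 : z ≠ 0) (hz : z ^ m = f) : ∃ y ∈ I, O.valuation (y : Om F) = O.valuation z := by
  have hv : 0 < O.valuation z := (Valuation.pos_iff _).2 h0
  have hle : ∀ x : S, O.valuation (x : Om F) ≤ 1 := fun x => (O.valuation_le_one_iff _).2 (hS _ x.2)
  obtain ⟨y, hy, h1⟩ : ∃ y ∈ I, O.valuation z ≤ O.valuation (y : Om F) := by
    by_contra hc
    have h1 : ∀ y ∈ I, O.valuation (y : Om F) < O.valuation z := fun y hy =>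
      not_le.1 fun e => hc ⟨y, hy, e⟩
    have h2 : ∀ k : ℕ, ∀ x ∈ I ^ (k + 1), O.valuation (x : Om F) < O.valuation z ^ (k + 1) := by
      intro k
      induction k with
      | zero => simpa using h1
      | succ k ih =>
        intro x hx
        rw [pow_succ] at hx
        refine Submodule.mul_induction_on hx (fun a ha b hb => ?_) fun a b ha hb => ?_
        · rw [Subring.coe_mul, map_mul, pow_succ]
          exact mul_lt_mul'' (ih a ha) (h1 b hb) zero_le zero_le
        · exact Valuation.map_add_lt _ ha hb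
    obtain ⟨k, rfl⟩ := Nat.exists_eq_succ_of_ne_zero hm
    have h3 := h2 k f (hI ▸ Ideal.mem_span_singleton_self f)
    rw [← hz, map_pow] at h3
    exact lt_irrefl _ h3
  refine ⟨y, hy, le_antisymm (le_of_pow_le_pow_left₀ hm zero_le ?_) h1⟩
  obtain ⟨r, hr⟩ := Ideal.mem_span_singleton'.1 (hI ▸ Ideal.pow_mem_pow hy m)
  have h4 := congrArg (fun x : S => O.valuation (x : Om F)) hr
  simp only [Subring.coe_mul, SubmonoidClass.coe_pow, map_mul, map_pow, ← hz] at h4
  rw [← h4]
  exact mul_le_of_le_one_left zero_le (hle r)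

/-- Let `z ^ m = f` in the closure.  At `O` over a good place write `f` as a finite sum of products
of `m` elements of `I` and take `z₀ ∈ I` of largest value among the factors; `f / z₀ ^ m` is a unit
at `O` fixed by `Ine O ≤ U.H`, so `Ine O` fixes `z` (`kp_unit` or a direct argument with roots of
unity).  Then `exists_adU` for the stabiliser of `z` in `U.H`. -/
theorem exists_root (hU : AdU N U) {m : ℕ} (hm : (m : F) ≠ 0) {f : lev N U.H} (hf : f ≠ 0)
    {I : Ideal (lev N U.H)} (hI : I ^ m = Ideal.span {f}) :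
    ∃ z : top N, (z : Om F) ^ m = f := by
  have : NeZero (m : Om F) := ⟨cast_ne hm⟩
  have hm0 : m ≠ 0 := fun e => hm (by rw [e, Nat.cast_zero])
  obtain ⟨z, hz⟩ := IsSepClosed.exists_pow_nat_eq (f : Om F) m
  have hf0 : (f : Om F) ≠ 0 := fun e => hf (Subtype.ext e)
  have h0 : z ≠ 0 := fun e => hf0 (by rw [← hz, e, zero_pow hm0])
  refine ⟨⟨z, int_iff.2 fun c hc O hO => ?_, ev_of (MulAction.stabilizer (Gam F) z)
    ((Near.fix z).mono fun g hg _ => hg) fun c hc O hO g hg => ?_⟩, hz⟩
  · have h1 := (O.valuation_le_one_iff _).2 (int_iff.1 f.2.1 c hc O hO)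
    rw [← hz, map_pow, pow_le_one_iff_of_nonneg zero_le hm0] at h1
    exact (O.valuation_le_one_iff _).1 h1
  · have hgU := hU.ine c hc O hO g hg
    obtain ⟨y, -, hy⟩ := tw3_val (S := lev N U.H) (fun x hx => int_iff.1 hx.1 c hc O hO) hm0 hI
      h0 hz
    have hv : O.valuation z ≠ 0 := by simpa using h0
    obtain ⟨d, hd⟩ := root_one_const (w := g z / z) (Nat.pos_of_ne_zero hm0) (by
      rw [div_pow, ← map_pow, hz, f.2.2 g hgU, div_self hf0])
    rw [div_eq_iff h0] at hd
    have h2 := hO.ine_const hg (z := z / y) (c := d) (by rw [map_div₀, hy, div_self hv]) (by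
      rw [map_div₀, y.2.2 g hgU, hd, mul_div_assoc])
    change g z = z
    rw [hd, h2]
    exact one_mul z

/-- Torsion points have integral coordinates (`exists_spec`: a point with a pole reduces to zero,
and reduction is injective on torsion) that are unramified at the good places. -/
theorem tors_top {A B D : F[X]} (h : A * B * (A - B) * D ∣ N) {n : ℕ} (hn : (n : F) ≠ 0)
    {x y : Om F} (hxy : ((curve A B D).baseChange (Om F)).toAffine.Nonsingular x y)
    (h0 : n • (WeierstrassCurve.Affine.Point.some x y hxy : Pt (curve A B D)) = 0) :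
    x ∈ top N ∧ y ∈ top N := by
  classical
  have hne : A * B * (A - B) * D ≠ 0 := ne_zero_of_dvd_ne_zero hN.out h
  have hc' : ∀ c : kk F, aeval c N ≠ 0 → aeval c (A * B * (A - B) * D) ≠ 0 := fun c hc =>
    ne_zero_of_dvd_ne_zero hc (map_dvd _ h)
  have h1 : ∀ c : kk F, aeval c N ≠ 0 → ∀ O, Over O (some c) → x ∈ O ∧ y ∈ O := fun c hc O hO => by
    obtain ⟨ev, S, -, -⟩ := exists_spec (hc' c hc) hO
    have hx : EC.xc (WeierstrassCurve.Affine.Point.some x y hxy) ∈ O.toSubring := by
      by_contra hx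
      exact WeierstrassCurve.Affine.Point.some_ne_zero hxy (S.tors_inj (sh_om hne) (cast_kk hn) h0
        ((S.hom_apply _).trans (S.spec_of_not_mem hx)))
    exact ⟨hx, S.yc_mem hx⟩
  have h2 : GI N fun g => g x = x ∧ g y = y := fun c hc O hO g hg => by
    obtain ⟨ev, S, hS, -⟩ := exists_spec (hc' c hc) hO
    have h3 : pm g (WeierstrassCurve.Affine.Point.some x y hxy : Pt (curve A B D)) =
        WeierstrassCurve.Affine.Point.some x y hxy := by
      rw [← sub_eq_zero]
      refine S.tors_inj (sh_om hne) (cast_kk hn) ?_ (by rw [map_sub, hS g hg, sub_self])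
      rw [smul_sub, ← map_nsmul, h0, map_zero, sub_self]
    exact ⟨congrArg EC.xc h3, congrArg EC.yc h3⟩
  exact ⟨⟨int_iff.2 fun c hc O hO => (h1 c hc O hO).1, ev_of (MulAction.stabilizer (Gam F) x)
      ((Near.fix x).mono fun g hg _ => hg) fun c hc O hO g hg => (h2 c hc O hO g hg).1⟩,
    int_iff.2 fun c hc O hO => (h1 c hc O hO).2, ev_of (MulAction.stabilizer (Gam F) y)
      ((Near.fix y).mono fun g hg _ => hg) fun c hc O hO g hg => (h2 c hc O hO g hg).2⟩

/-- All torsion points of a finite family of curves are defined over one level. -/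
theorem tors_lev {ι : Type} [Finite ι] {A B D : ι → F[X]}
    (h : ∀ i, A i * B i * (A i - B i) * D i ∣ N) {n : ℕ} (hn : (n : F) ≠ 0) :
    ∃ U : OS F, AdU N U ∧ ∀ i (x y : Om F)
      (hxy : ((curve (A i) (B i) (D i)).baseChange (Om F)).toAffine.Nonsingular x y),
      n • (WeierstrassCurve.Affine.Point.some x y hxy : Pt (curve (A i) (B i) (D i))) = 0 →
        x ∈ lev N U.H ∧ y ∈ lev N U.H := by
  have hn0 : n ≠ 0 := fun e => hn (by rw [e, Nat.cast_zero])
  have : ∀ i, Finite {P : Pt (curve (A i) (B i) (D i)) // n • P = 0} := fun i =>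
    Nat.finite_of_card_ne_zero (by
      rw [card_tors (ne_zero_of_dvd_ne_zero hN.out (h i)) hn]
      exact pow_ne_zero 2 hn0)
  have h1 : ∀ P : Σ i, {P : Pt (curve (A i) (B i) (D i)) // n • P = 0},
      EC.xc P.2.1 ∈ top N ∧ EC.yc P.2.1 ∈ top N := by
    rintro ⟨i, _ | ⟨x, y, hxy⟩, h0⟩
    · exact ⟨zero_mem _, zero_mem _⟩
    · exact tors_top (h i) hn hxy h0
  obtain ⟨_, ⟨U, hU, rfl⟩, h2⟩ := Fam.Ev.forall fun P => (h1 P).1.2.and (h1 P).2.2
  exact ⟨U, hU, fun i x y hxy h0 =>
    ⟨⟨(h1 ⟨i, _, h0⟩).1.1, fun g hg => (h2 ⟨g, U.le hg⟩ hg ⟨i, _, h0⟩).1⟩,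
      (h1 ⟨i, _, h0⟩).2.1, fun g hg => (h2 ⟨g, U.le hg⟩ hg ⟨i, _, h0⟩).2⟩⟩

theorem tw3_ext {K E L : Type} [Field K] [Field E] [Field L] [IsSepClosed L] [Algebra K L]
    [Algebra.IsSeparable K L] (j : K →+* E) (ι ι' : E →+* L) (h : ι.comp j = algebraMap K L)
    (h' : ι'.comp j = algebraMap K L) : ∃ s : L ≃ₐ[K] L, ∀ e, s (ι e) = ι' e := by
  have h1 : ∃ s : L →+* L, ∀ e, s (ι e) = ι' e := by
    letI := j.toAlgebra
    letI := ι.toAlgebra
    have : IsScalarTower K E L := IsScalarTower.of_algebraMap_eq' h.symm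
    have := Algebra.isSeparable_tower_top_of_isSeparable K E L
    let s := @IsSepClosed.lift E L L _ _ ι.toAlgebra _ ι'.toAlgebra _ this
    exact ⟨@AlgHom.toRingHom E L L _ _ _ ι.toAlgebra ι'.toAlgebra s,
      @AlgHom.commutes E L L _ _ _ ι.toAlgebra ι'.toAlgebra s⟩
  obtain ⟨s, hs⟩ := h1
  let t : L →ₐ[K] L := ⟨s, fun a => by
    have h2 := hs (j a)
    rwa [← RingHom.comp_apply ι, ← RingHom.comp_apply ι', h, h'] at h2⟩
  exact ⟨AlgEquiv.ofBijective t (Algebra.IsAlgebraic.algHom_bijective t), hs⟩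

theorem exists_fr : ∃ s : Gam F, Fr s (Fintype.card F) := by
  let σ := (FiniteField.frobeniusAlgHom F (kk F)).toRingHom
  let a : (kk F)[X] →+* Om F := (aeval (tt F)).toRingHom
  have ha : Function.Injective a := transcendental_iff_injective.1 tt_trans
  have hb : Function.Injective (a.comp (mapRingHom σ)) := ha.comp (map_injective σ σ.injective)
  have hj : Function.Injective ((algebraMap (kk F)[X] (RatFunc (kk F))).comp
      (mapRingHom (algebraMap F (kk F)))) :=
    (IsFractionRing.injective _ _).comp (map_injective _ (algebraMap F (kk F)).injective)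
  have h1 : ∀ p : F[X], a (p.map (algebraMap F (kk F))) =
      algebraMap (RatFunc F) (Om F) (algebraMap F[X] (RatFunc F) p) := fun p =>
    (aeval_map_algebraMap (kk F) (tt F) p).trans (rf_eq p).symm
  obtain ⟨s, hs⟩ := tw3_ext (K := RatFunc F) (IsFractionRing.lift hj)
    (IsFractionRing.lift (K := RatFunc (kk F)) ha) (IsFractionRing.lift hb)
    (IsLocalization.ringHom_ext (nonZeroDivisors F[X]) (RingHom.ext fun p => by
      simp only [RingHom.comp_apply, IsFractionRing.lift_algebraMap, coe_mapRingHom]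
      exact h1 p))
    (IsLocalization.ringHom_ext (nonZeroDivisors F[X]) (RingHom.ext fun p => by
      simp only [RingHom.comp_apply, IsFractionRing.lift_algebraMap, coe_mapRingHom]
      rw [Polynomial.map_map, show σ.comp (algebraMap F (kk F)) = algebraMap F (kk F) from
        (FiniteField.frobeniusAlgHom F (kk F)).comp_algebraMap]
      exact h1 p))
  refine ⟨s, fun c => ?_⟩
  have h2 := hs (algebraMap (kk F)[X] _ (C c))
  rw [IsFractionRing.lift_algebraMap, IsFractionRing.lift_algebraMap, RingHom.comp_apply,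
    coe_mapRingHom, map_C] at h2
  exact (congrArg s (aeval_C (tt F) c)).symm.trans (h2.trans (aeval_C (tt F) _))

theorem exists_ac : Nonempty (AlgebraicClosure F ≃ₐ[F] kk F) := by
  have : IsAlgClosure F (kk F) := ⟨kk_algClosed, inferInstance⟩
  exact ⟨IsAlgClosure.equiv F _ _⟩

end

end Pool.Agent.Lib.MP_16ef92_ag.TP
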