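import Mathlib
import Pool.Agent.Lib.MP_16ef92_ag.TP.Tw2
import Pool.Agent.Lib.MP_16ef92_ag.TP.Tw3
import Pool.Agent.Lib.MP_16ef92_ag.LH.Def

set_option autoImplicit false
set_option linter.unusedSectionVars false
set_option linter.unusedVariables false
set_option linter.style.haveILetI false

namespace Pool.Agent.Lib.MP_16ef92_ag.TP

noncomputable section

open Polynomial AL RS LH

variable {F : Type} [Field F] [Clos F] [Fintype F] [hq : Fact (Odd (Fintype.card F))]
  {N : F[X]} [hN : Fact (N ≠ 0)] [Bg] (p : ℕ) [CharP F p] [CharP OO p] {n : ℕ} [NeZero n]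
  [NeZero (n : OO)]

theorem van_ft (K : Type) [CommRing K] : (C : K →+* K[X]).FiniteType :=
  RingHom.finiteType_algebraMap.2 (inferInstance : Algebra.FiniteType K K[X])

theorem van_et_ft {V W : Type} [CommRing V] [CommRing W] {b : V →+* W} (hb : b.Etale) :
    b.FiniteType := by
  letI := b.toAlgebra
  haveI : Algebra.Etale V W := hb.toAlgebra
  exact (inferInstance : Algebra.FiniteType V W)

include p in
theorem base_lev {U : OS F} (hU : AdU N U) : Base (lev N U.H) :=
  ⟨good_sub p _, kk F, inferInstance, ((bU N U).comp (hB N)).comp C, inferInstance,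
    (van_et_ft (et_comp hB_etale (bU_etale hU))).comp (van_ft _)⟩

theorem van_ne {V W : Type} [CommRing V] [CommRing W] [Nontrivial W] {b : V →+* W} (hb : b.Etale)
    {f : V} (hf : f ∈ nonZeroDivisors V) : b f ≠ 0 := fun h => by
  letI := b.toAlgebra
  haveI : Algebra.Etale V W := hb.toAlgebra
  have h1 : IsSMulRegular W f := Module.Flat.isSMulRegular_of_nonZeroDivisors hf
  refine one_ne_zero (h1 (?_ : f • (1 : W) = f • (0 : W)))
  rw [smul_zero, Algebra.smul_def, mul_one]
  exact h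

include p in
theorem van_kk : Good (kk F) := good_sub p (kk F).toSubring

theorem van_cast {m : ℕ} (h : (m : kk F) ≠ 0) : (m : F) ≠ 0 := fun e => h (by
  rw [← map_natCast (algebraMap F (kk F)), e, map_zero])

/-- Roots of finitely many elements of a stage lie in a level over it. -/
theorem van_roots (U : FA.Stage (aT N)) {r : ℕ} {f : Fin r → U.W} {m : Fin r → ℕ}
    {I : Fin r → Ideal U.W} (h : ∀ i, f i ∈ nonZeroDivisors U.W ∧ (m i : kk F) ≠ 0 ∧
      I i ^ m i = Ideal.span {f i}) : ∃ (W : Type) (_ : CommRing W) (b : U.W →+* W)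
      (d : W →+* top N), b.Etale ∧ d.comp b = U.d ∧ ∀ i, ∃ z, z ^ m i = b (f i) := by
  obtain ⟨M, hM⟩ := (fam N).ne
  obtain ⟨V, hV, e, -, h1, h2⟩ := fac_lev (van_et_ft U.et) U.d U.comm hM
  have he : e.Etale := et_cancel U.et (h1 ▸ bU_etale hV)
  choose z hz using fun i => exists_root hV (van_cast (h i).2.1) (van_ne he (h i).1)
    (I := (I i).map e) (by rw [← Ideal.map_pow, (h i).2.2, Ideal.map_span, Set.image_singleton])
  obtain ⟨V', hV', h3, h4⟩ := exists_lev z hV.mem
  have h5 : V'.H ≤ V.H := fun g hg => h3 (x := ⟨g, V'.le hg⟩) hg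
  refine ⟨lev N V'.H, _, (Subring.inclusion (lev_le h5)).comp e, dU hV', et_cancel U.et ?_, ?_,
    fun i => ⟨⟨z i, h4 i⟩, Subtype.ext (hz i)⟩⟩
  · rw [RingHom.comp_assoc, h1]
    exact bU_etale hV'
  · rw [← h2]
    rfl

include p in
/-- `H_ie_zero` for `ie_aT`; a stage is etale over the line (`hB_etale`, `hB_C`); `CrvH.van`, and
in degree one `CrvH.kum`: map the stage to a level (`fac_lev`), take roots (`exists_root`), they
lie in a smaller level (`exists_lev`), which is etale over the stage (`et_cancel`). -/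
theorem H_top (hC : CrvH n) (q : ℕ) (ξ : H (q + 1) (mu n (top N))) : ξ = 0 := by
  refine H_ie_zero ie_aT (good_sub p _) (q + 1) (mu n (Bb N)) (fun U η => ?_) ξ
  have hh : (U.a.comp (hB N)).Etale := et_comp hB_etale U.et
  cases q with
  | succ q =>
    rw [hC.van (kk F) U.W (van_kk p) _ hh (mu n (kk F)) (mu_tor n) q η]
    exact map_zero _
  | zero =>
    obtain ⟨r, f, m, I, h1, h2⟩ := hC.kum (kk F) U.W (van_kk p) _ hh (mu n (kk F)) (mu_tor n) η
    obtain ⟨W, _, b, d, hb, hd, hz⟩ := van_roots U h1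
    have h3 := (h2 W b hb hz).comp d
    rw [hd] at h3
    exact h3

theorem exists_sec {R : Type} [CommRing R] {ζ : R} (h : ζ ^ n = 1) :
    ∃ s : Z0 (mu n R), ∀ x : Pnt R, uv (s.1 x) = x ζ := by
  obtain ⟨t, ht⟩ := muB_ex h
  exact ⟨⟨t, ms_of h ht⟩, ht⟩

theorem sec_map {R R' : Type} [CommRing R] [CommRing R'] {ζ : R} {ζ' : R'} {s : Z0 (mu n R)}
    {s' : Z0 (mu n R')} (h : ∀ x : Pnt R, uv (s.1 x) = x ζ) (h' : ∀ x : Pnt R', uv (s'.1 x) = x ζ')
    (g : R →+* R') {k : ℕ} (e : g ζ = ζ' ^ k) : (muMap n g).app s = k • s' := by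
  refine Subtype.ext (funext fun x => muB_inj ?_)
  refine (h (x.comp g)).trans (Eq.trans ?_ (muB_nsmul k (s'.1 x)).symm)
  rw [h', RingHom.comp_apply, e, map_pow]

/-- `MS.root`; a root of unity in a domain is a power of a primitive one. -/
theorem H0_dom {R : Type} [CommRing R] [IsDomain R] (hR : Good R) {ζ : R}
    (h : IsPrimitiveRoot ζ n) {s : Z0 (mu n R)} (hs : ∀ x : Pnt R, uv (s.1 x) = x ζ)
    (ξ : Z0 (mu n R)) : ξ ∈ AddSubgroup.zmultiples s := by
  obtain ⟨ζ', h1, h2⟩ := MS.root hR ξ.2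
  obtain ⟨i, -, e⟩ := h.eq_pow_of_pow_eq_one h1
  refine AddSubgroup.mem_zmultiples_iff.2 ⟨(i : ℤ), ?_⟩
  rw [natCast_zsmul]
  refine Subtype.ext (funext fun x => muB_inj ?_)
  refine (muB_nsmul i (s.1 x)).trans (Eq.trans ?_ (h2 x).symm)
  rw [hs, ← e, map_pow]

end

end Pool.Agent.Lib.MP_16ef92_ag.TP
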