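import Mathlib
import Pool.Agent.Lib.MP_16ef92_ag.TP.Van
import Pool.Agent.Lib.MP_16ef92_ag.TP.Prs
import Pool.Agent.Lib.MP_16ef92_ag.AL.IDef
import Pool.Agent.Lib.MP_16ef92_ag.CV.Fib

set_option autoImplicit false
set_option linter.unusedSectionVars false
set_option linter.unusedVariables false
set_option linter.style.haveILetI false

namespace Pool.Agent.Lib.MP_16ef92_ag.TP

noncomputable section

open Polynomial AL RS LH

variable {F : Type} [Field F] [Clos F] [Fintype F] [hq : Fact (Odd (Fintype.card F))]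
  {N : F[X]} [hN : Fact (N ≠ 0)]

variable (N) in
/-- A polynomial as an element of the base ring. -/
def cf (P : F[X]) : Bb N := i0 N (algebraMap F[X] _ P)

theorem cf_val (P : F[X]) : (cf N P : Om F) = algebraMap F[X] (Om F) P :=
  IsLocalization.Away.lift_eq N (unit_N N) P

theorem actT_cf (g : Gam F) (P : F[X]) : actT N g (aT N (cf N P)) = aT N (cf N P) :=
  Subtype.ext (gam_emb g _)

variable [Bg] (p : ℕ) [CharP F p] [CharP OO p] {l m : ℕ} [Fact l.Prime] [NeZero (l ^ m)]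
  {k : ℕ} {A B E : Fin k → F[X]}

theorem tcls_omap {R R' R'' : Type} [CommRing R] [CommRing R'] [CommRing R''] (f : R →+* R')
    (g : R' →+* R'') (o : CV.Op R) : CV.omap g (CV.omap f o) = CV.omap (g.comp f) o := by
  cases o <;> rfl

theorem tcls_pm {W : WeierstrassCurve (RatFunc F)} (g : Gam F) (P : Pt W) :
    CV.pt (pm g P) = CV.omap (g : Om F →+* Om F) (CV.pt P) := by
  cases P <;> rfl

theorem tcls_tors {W : WeierstrassCurve (RatFunc F)} (T : TM l W) (v : Fin 2 → ℤ_[l]) :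
    l ^ m • T.ev v m = 0 := by
  have h1 : T.ev (l ^ m • v) m = 0 := (T.zero m _).2 fun i =>
    ⟨v i, by rw [Pi.smul_apply, nsmul_eq_mul, Nat.cast_pow]⟩
  rwa [map_nsmul] at h1

theorem tcls_ind {W : WeierstrassCurve (RatFunc F)} (T : TM l W) (a₀ a₁ : ℕ)
    (h : a₀ • T.ev (Pi.single 0 1) m + a₁ • T.ev (Pi.single 1 1) m = 0) :
    l ^ m ∣ a₀ ∧ l ^ m ∣ a₁ := by
  have h1 : T.ev (a₀ • Pi.single 0 1 + a₁ • Pi.single 1 1) m = 0 := by
    rw [map_add, map_nsmul, map_nsmul]; exact h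
  have h2 := (T.zero m _).1 h1
  have h3 : ∀ a : ℕ, (l : ℤ_[l]) ^ m ∣ a → l ^ m ∣ a := fun a ha => by
    have := (PadicInt.pow_p_dvd_int_iff m (a : ℤ)).1 (by simpa using ha)
    exact_mod_cast this
  exact ⟨h3 _ (by simpa using h2 0), h3 _ (by simpa using h2 1)⟩

include p in
theorem tcls_nb {S : Subring (Om F)} (j : Bb N →+* S) {ζ : kk F}
    (hζ : IsPrimitiveRoot ζ (l ^ m)) : CV.NB (l ^ m) (j (kB N ζ)) :=
  ⟨good_sub p S, (CV.prim_field hζ).map (j.comp (kB N)),
    CV.four_of (j.comp (kB N)) (NeZero.ne _)⟩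

theorem tcls_ok {S : Type} [CommRing S] (j : Bb N →+* S) {A B E : F[X]}
    (h : A * B * (A - B) * E ∣ N) : CV.Ok (wc (j (cf N (E * A))) (j (cf N (E * B)))) := by
  let c : F[X] →+* S := j.comp ((i0 N).comp (algebraMap F[X] _))
  have hu : ∀ P : F[X], P ∣ N → IsUnit (c P) := fun P hP =>
    ((IsLocalization.Away.isUnit_of_dvd (S := Localization.Away N) N hP).map (i0 N)).map j
  refine wc_ok ?_ ?_
  · simpa only [map_ofNat] using (two_neF (F := F)).isUnit.map (c.comp C)
  · have h1 := hu _ h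
    have h2 := hu E ((dvd_mul_left E _).trans h)
    have h3 : c (E * A) * c (E * B) * (c (E * A) - c (E * B)) =
        c (A * B * (A - B) * E) * c E ^ 2 := by
      simp only [map_mul, map_sub]; ring
    exact (h3 ▸ h1.mul (h2.pow 2) : IsUnit (c (E * A) * c (E * B) * (c (E * A) - c (E * B))))

theorem tcls_map {S : Subring (Om F)} {j : Bb N →+* S} (hj : ∀ r, (j r : Om F) = r)
    (A B E : F[X]) : (wc (j (cf N (E * A))) (j (cf N (E * B)))).map S.subtype =
      ((curve A B E).baseChange (Om F)).toAffine := by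
  have h1 : ∀ P, S.subtype (j (cf N P)) = algebraMap (RatFunc F) (Om F) (rf P) := fun P =>
    (hj _).trans (cf_val P)
  rw [wc_map, h1, h1]
  ext <;> simp only [wc, curve, WeierstrassCurve.baseChange, WeierstrassCurve.toAffine,
    WeierstrassCurve.map_a₁, WeierstrassCurve.map_a₂, WeierstrassCurve.map_a₃,
    WeierstrassCurve.map_a₄, WeierstrassCurve.map_a₆, map_zero, map_neg, map_add, map_mul]

include p in
theorem tcls_one (hl : (l : F) ≠ 0) {S : Subring (Om F)} [IsIntegrallyClosed S] {j : Bb N →+* S}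
    (hj : ∀ r, (j r : Om F) = r) {A B E : F[X]} (h : A * B * (A - B) * E ∣ N)
    (T : TM l (curve A B E)) {ζ : kk F} (hζ : IsPrimitiveRoot ζ (l ^ m))
    (hS : ∀ (x y : Om F) (hxy : ((curve A B E).baseChange (Om F)).toAffine.Nonsingular x y),
      l ^ m • (WeierstrassCurve.Affine.Point.some x y hxy : Pt (curve A B E)) = 0 →
        x ∈ S ∧ y ∈ S) :
    ∃ (o : (Fin 2 → ℤ_[l]) → CV.Op S) (c : (Fin 2 → ℤ_[l]) →+
      H 1 (cst (wc (j (cf N (E * A))) (j (cf N (E * B)))).CoordinateRing (ZMod (l ^ m)))),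
      (∀ v, CV.omap S.subtype (o v) = CV.pt (T.ev v m)) ∧
      (∀ v, CV.KC _ (l ^ m) (j (kB N ζ)) (o v) (c v)) ∧
      Fbr (l ^ m) (algebraMap S _) fun e => c (Pi.single e 1) := by
  have hp : Fact p.Prime := ⟨CharP.char_is_prime F p⟩
  have hl' : (l : OO) ≠ 0 := fun e =>
    hl ((CharP.cast_eq_zero_iff F p l).2 ((CharP.cast_eq_zero_iff OO p l).1 e))
  have hA := tcls_nb p j hζ
  have hO := tcls_ok j h
  have hW := tcls_map hj A B E
  have hι : Function.Injective S.subtype := Subtype.val_injective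
  have hr : ∀ P : Pt (curve A B E), l ^ m • P = 0 → ∃ o, CV.omap S.subtype o = CV.pt P := by
    rintro (_ | ⟨x, y, hxy⟩) hP
    · exact ⟨none, rfl⟩
    · exact ⟨some (⟨x, (hS x y hxy hP).1⟩, ⟨y, (hS x y hxy hP).2⟩), rfl⟩
  choose o ho using fun v => hr _ (tcls_tors (m := m) T v)
  choose c hc using fun v => CV.KC.ex hA hO hι hW (ho v) (tcls_tors T v)
  refine ⟨o, AddMonoidHom.mk' c fun v w => CV.KC.add hA hO hι hW (ho v) (ho w)
    ((ho (v + w)).trans (by rw [map_add]; rfl)) (hc v) (hc w) (hc (v + w)), ho, hc, ?_⟩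
  exact CV.fbr_ell p rfl hl' hA hO hι hW hr (P := fun e => T.ev (Pi.single e 1) m)
    (fun e => tcls_tors T _) (tcls_ind T) (fun e => ho _) fun e => hc _

theorem tcls_cm {R R' : Type} [CommRing R] [CommRing R'] {a b : R} {a' b' : R'} (τ : R →+* R')
    (ha : τ a = a') (hb : τ b = b') :
    ∃ ψ : (wc a b).CoordinateRing →+* (wc a' b').CoordinateRing, CV.CM _ _ τ ψ ∧
      ψ.comp (algebraMap _ _) = (algebraMap _ _).comp τ ∧ ψ (xc a b) = xc a' b' ∧
        ψ (yc a b) = yc a' b' := by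
  obtain ⟨ψ, h1, h2, h3⟩ := (prs_wc a b).exists_map (prs_wc a' b') (fun _ => ha) fun _ => hb
  exact ⟨ψ, cm_of ha hb h1 (h2 ()) (h3 ()), h1, h2 (), h3 ()⟩

include p in
/-- The classes attached to the torsion points.  Take the level `U` of `tors_lev`; `cl i v` is the
pullback to `Z` of the class over `top N` of the point `(T i).ev v m`; `c i e` is the class over
the level of the point `(T i).ev (Pi.single e 1) m`. -/
theorem exists_cls (hl : (l : F) ≠ 0) (h : ∀ i, A i * B i * (A i - B i) * E i ∣ N)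
    (T : ∀ i, TM l (curve (A i) (B i) (E i))) {ζ : kk F} (hζ : IsPrimitiveRoot ζ (l ^ m))
    {Z : Type} [CommRing Z] {φ : top N →+* Z} {x y : Fin k → Z}
    (hZ : Eqs (fun i => φ (aT N (cf N (E i * A i)))) (fun i => φ (aT N (cf N (E i * B i)))) x y) :
    ∃ (U : OS F) (hU : AdU N U)
      (c : ∀ i, Fin 2 → H 1 (cst (wc (bU N U (cf N (E i * A i)))
        (bU N U (cf N (E i * B i)))).CoordinateRing (ZMod (l ^ m))))
      (cl : Fin k → (Fin 2 → ℤ_[l]) →+ H 1 (cst Z (ZMod (l ^ m)))),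
      (∀ i, Fbr (l ^ m) (algebraMap (lev N U.H) _) (c i)) ∧
      (∀ i (π : (wc (bU N U (cf N (E i * A i))) (bU N U (cf N (E i * B i)))).CoordinateRing →+* Z),
        π.comp (algebraMap (lev N U.H) _) = φ.comp (dU hU) → π (xc _ _) = x i → π (yc _ _) = y i →
          ∀ e, cpb π (c i e) = cl i (Pi.single e 1)) ∧
      ∀ (g : Gam F) (χ : Z →+* Z) (q : ℕ), χ.comp φ = φ.comp (actT N g) → (∀ i, χ (x i) = x i) →
        (∀ i, χ (y i) = y i) → g ζ = (ζ : Om F) ^ q →
          ∀ i v, cl i ((T i).ro g v) = q • cpb χ (cl i v) := by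
  have hn : ((l ^ m : ℕ) : F) ≠ 0 := by rw [Nat.cast_pow]; exact pow_ne_zero _ hl
  obtain ⟨U, hU, hS⟩ := tors_lev h hn
  choose o c ho hc hf using fun i =>
    tcls_one p hl (j := bU N U) (fun _ => rfl) (h i) (T i) hζ (hS i)
  choose o' c' ho' hc' _ using fun i => tcls_one p hl (j := aT N) (fun _ => rfl) (h i) (T i) hζ
    fun x y hxy => tors_top (h i) hn hxy
  choose π' π1 π2 π3 using fun i => Prs.exists_proj (φ := φ)
    (a := fun i => aT N (cf N (E i * A i))) (b := fun i => aT N (cf N (E i * B i))) hZ i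
  have hA := tcls_nb p (aT N) hζ
  have hι : Function.Injective (top N).subtype := Subtype.val_injective
  refine ⟨U, hU, fun i e => c i (Pi.single e 1),
    fun i => (Hmap 1 (cstMap (π' i) (AddMonoidHom.id _))).comp (c' i), hf,
    fun i π e1 e2 e3 e => ?_, fun g χ q e1 e2 e3 hg i v => ?_⟩
  · obtain ⟨ψ, hψ, f1, f2, f3⟩ := tcls_cm (a := bU N U (cf N (E i * A i)))
      (b := bU N U (cf N (E i * B i))) (a' := aT N (cf N (E i * A i)))
      (b' := aT N (cf N (E i * B i))) (dU hU) rfl rfl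
    have h1 : π = (π' i).comp ψ := prsb_ext
      (by rw [e1, RingHom.comp_assoc, f1, ← RingHom.comp_assoc, π1])
      (by rw [e2, RingHom.comp_apply, f2, π2]) (by rw [e3, RingHom.comp_apply, f3, π3])
    have h2 : CV.omap (dU hU) (o i (Pi.single e 1)) = o' i (Pi.single e 1) :=
      CV.omap_inj hι ((tcls_omap _ _ _).trans ((ho i _).trans (ho' i _).symm))
    have h3 := (hc i (Pi.single e 1)).map hψ
    rw [h2] at h3
    rw [h1, ← cpb_cpb]
    exact congrArg (cpb (π' i)) (CV.KC.unique hA (tcls_ok _ (h i)) h3 (hc' i _))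
  · obtain ⟨ψ, hψ, f1, f2, f3⟩ := tcls_cm (actT N g) (actT_cf g (E i * A i)) (actT_cf g (E i * B i))
    have h1 : χ.comp (π' i) = (π' i).comp ψ := prsb_ext
      (by rw [RingHom.comp_assoc, π1, e1, RingHom.comp_assoc, f1, ← RingHom.comp_assoc, π1])
      (by rw [RingHom.comp_apply, π2, e2, RingHom.comp_apply, f2, π2])
      (by rw [RingHom.comp_apply, π3, e3, RingHom.comp_apply, f3, π3])
    have h2 : o' i ((T i).ro g v) = CV.omap (actT N g) (o' i v) := by
      refine CV.omap_inj hι ?_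
      rw [ho', (T i).equiv, act_apply, tcls_pm, ← ho', tcls_omap, tcls_omap]
      rfl
    have h3 := CV.KC.nat hA.prim hA (tcls_ok _ (h i)) hψ (k := q) (Subtype.ext hg) (hc' i v)
      (h2 ▸ hc' i ((T i).ro g v))
    change cpb (π' i) (c' i _) = q • cpb χ (cpb (π' i) (c' i v))
    rw [h3, cpb_cpb, h1, ← cpb_cpb]
    exact map_nsmul _ _ _

end

end Pool.Agent.Lib.MP_16ef92_ag.TP
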