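import Mathlib
import Pool.Agent.Lib.MP_16ef92_ag.TP.Prs
import Pool.Agent.Lib.MP_16ef92_ag.LH.Def

set_option autoImplicit false
set_option linter.unusedSectionVars false
set_option linter.unusedVariables false
set_option linter.style.haveILetI false

namespace Pool.Agent.Lib.MP_16ef92_ag.TP

noncomputable section

open RS LH

variable [Bg] {W Z Z' : Type} [CommRing W] [CommRing Z] [CommRing Z'] {n : ℕ} [NeZero n]
  {F : Sys Z} {F' : Sys Z'}

/-- Iterated cup products. -/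
def mono (hF : F.Tor n) (s : H 0 F) : ∀ r : ℕ, (Fin r → H 1 (cst Z (ZMod n))) → H r F
  | 0, _ => s
  | r + 1, c => cup hF (c 0) r (mono hF s r (Fin.tail c))

theorem mono_nat (hF : F.Tor n) (hF' : F'.Tor n) {g : Z →+* Z'} (m : Mor g F F') (s : H 0 F)
    (r : ℕ) (c : Fin r → H 1 (cst Z (ZMod n))) :
    Hmap r m (mono hF s r c) = mono hF' (Hmap 0 m s) r fun t => cpb g (c t) := by
  induction r with
  | zero => rfl
  | succ r ih => rw [mono, cup_nat hF hF', ih]; rfl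

theorem mono_nsmul (hF : F.Tor n) (s : H 0 F) (k r : ℕ) (c : Fin r → H 1 (cst Z (ZMod n))) :
    mono hF (k • s) r c = k • mono hF s r c := by
  induction r with
  | zero => rfl
  | succ r ih => rw [mono, mono, ih, map_nsmul]

theorem exists_monoL (hF : F.Tor n) (s : H 0 F) (r : ℕ) :
    ∃ μ : MultilinearMap ℤ (fun _ : Fin r => (H 1 (cst Z (ZMod n)) : Type)) (H r F),
      ∀ c, μ c = mono hF s r c := by
  induction r with
  | zero => exact ⟨MultilinearMap.constOfIsEmpty ℤ _ s, fun _ => rfl⟩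
  | succ r ih =>
    obtain ⟨μ, hμ⟩ := ih
    refine ⟨LinearMap.uncurryLeft (M := fun _ : Fin (r + 1) => (H 1 (cst Z (ZMod n)) : Type))
      (AddMonoidHom.mk' (fun c => (cup hF c r).toIntLinearMap.compMultilinearMap μ)
        fun c c' => MultilinearMap.ext fun v => cup_add hF c c' r _).toIntLinearMap, fun c => ?_⟩
    exact congrArg (cup hF (c 0) r) (hμ (Fin.tail c))

/-- The Leray-Hirsch theorem, as a hypothesis. -/
structure LHS (n : ℕ) [NeZero n] : Prop where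
  bc : ∀ (A Y R V : Type) [CommRing A] [CommRing Y] [CommRing R] [CommRing V] (f : A →+* Y)
    (c : Fin 2 → H 1 (cst Y (ZMod n))) (τ : A →+* R) (i : Y →+* V) (j : R →+* V), Fbr n f c →
    FA.PO f τ i j → Fbr n j fun e => cpb i (c e)
  zero : ∀ (R V : Type) [CommRing R] [CommRing V] (j : R →+* V)
    (c : Fin 2 → H 1 (cst V (ZMod n))), Base R → Fbr n j c → ∀ F : Sys R, F.Tor n →
    Function.Surjective (Hmap 0 (F.can j))
  succ : ∀ (R V : Type) [CommRing R] [CommRing V] (j : R →+* V)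
    (c : Fin 2 → H 1 (cst V (ZMod n))), Base R → Fbr n j c → ∀ (q : ℕ) (F : Sys R) (hF : F.Tor n)
    (ξ : HH (q + 1) F j), ∃ (z : H (q + 1) F) (m : Fin 2 → H q F),
      ξ = Hmap (q + 1) (F.can j) z + lh c j hF q m

/-- The span of the ordered monomials in the classes `cl i e`. -/
def Spn (hF : F.Tor n) (s : H 0 F) {k : ℕ} (cl : Fin k → Fin 2 → H 1 (cst Z (ZMod n))) (r : ℕ) :
    AddSubgroup (H r F) :=
  AddSubgroup.closure {ξ | ∃ (σ : Fin r → Fin k) (ε : Fin r → Fin 2), StrictMono σ ∧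
    ξ = mono hF s r fun t => cl (σ t) (ε t)}

theorem monob_tail (hF : F.Tor n) (s : H 0 F) {k : ℕ}
    (cl : Fin (k + 1) → Fin 2 → H 1 (cst Z (ZMod n))) (r : ℕ) :
    Spn hF s (Fin.tail cl) r ≤ Spn hF s cl r := by
  refine AddSubgroup.closure_mono ?_
  rintro _ ⟨σ, ε, hσ, rfl⟩
  exact ⟨fun t => (σ t).succ, ε, fun _ _ h => Fin.succ_lt_succ_iff.2 (hσ h), rfl⟩

theorem monob_cup (hF : F.Tor n) (s : H 0 F) {k : ℕ}
    (cl : Fin (k + 1) → Fin 2 → H 1 (cst Z (ZMod n))) (e : Fin 2) (r : ℕ) {ξ : H r F}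
    (h : ξ ∈ Spn hF s (Fin.tail cl) r) : cup hF (cl 0 e) r ξ ∈ Spn hF s cl (r + 1) := by
  refine (AddSubgroup.closure_le ((Spn hF s cl (r + 1)).comap (cup hF (cl 0 e) r))).2 ?_ h
  rintro _ ⟨σ, ε, hσ, rfl⟩
  refine AddSubgroup.subset_closure ⟨Fin.cons 0 fun t => (σ t).succ, Fin.cons e ε, ?_, rfl⟩
  intro t t' ht
  rcases Fin.eq_zero_or_eq_succ t' with rfl | ⟨u', rfl⟩
  · exact absurd ht (Fin.not_lt_zero t)
  rcases Fin.eq_zero_or_eq_succ t with rfl | ⟨u, rfl⟩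
  · exact Fin.succ_pos _
  · exact Fin.succ_lt_succ_iff.2 (hσ (Fin.succ_lt_succ_iff.1 ht))

/-- Induction on `k` with `Prs.step` (take `X₁ = fibRing` of the tails, `prs_fib`), `Prs.ft`,
`Base.of_ft`; the case `k = 0` is `Prs.bij` with `Hmap_bij'`.  In the step `σ` becomes
`Fin.succ ∘ σ` or `Fin.cons 0 (Fin.succ ∘ σ)`. -/
theorem span_mono (hL : LHS n) (hW : Base W) (G : Sys W) (hG : G.Tor n) (ω : W →+* Z)
    (s : HH 0 G ω) (h0 : ∀ ξ : H 0 G, Hmap 0 (G.can ω) ξ ∈ AddSubgroup.zmultiples s)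
    (h1 : ∀ (q : ℕ) (ξ : H (q + 1) G), Hmap (q + 1) (G.can ω) ξ = 0)
    {k : ℕ} {a b : Fin k → W} {X : Type} [CommRing X] {φ : W →+* X} {x y : Fin k → X}
    (hX : Prs a b φ x y) (χ : X →+* Z) (hχ : χ.comp φ = ω)
    {Y : Fin k → Type} [∀ i, CommRing (Y i)] {f : ∀ i, W →+* Y i} {x₀ y₀ : ∀ i, Y i}
    (hY : ∀ i, Prs (fun _ : Unit => a i) (fun _ => b i) (f i) (fun _ => x₀ i) fun _ => y₀ i)
    {c : ∀ i, Fin 2 → H 1 (cst (Y i) (ZMod n))} (hc : ∀ i, Fbr n (f i) (c i))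
    (cl : Fin k → Fin 2 → H 1 (cst Z (ZMod n)))
    (hcl : ∀ i (π : Y i →+* Z), π.comp (f i) = ω → π (x₀ i) = χ (x i) → π (y₀ i) = χ (y i) →
      ∀ e, cpb π (c i e) = cl i e)
    (r : ℕ) (ξ : HH r G φ) : HR r G χ hχ ξ ∈ Spn (hG.pb ω) s cl r := by
  induction k generalizing X r with
  | zero =>
    obtain ⟨η, rfl⟩ := (Hmap_bij' r (G.can φ) hX.bij (fun _ _ _ h => h)
      fun _ v hv => ⟨v, hv, rfl⟩).2 ξ
    rw [HR_can]
    cases r with
    | zero =>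
      refine (AddSubgroup.zmultiples_le_of_mem ?_ : _ ≤ Spn (hG.pb ω) s cl 0) (h0 η)
      exact AddSubgroup.subset_closure ⟨Fin.elim0, Fin.elim0, fun t => t.elim0, rfl⟩
    | succ q =>
      rw [h1]
      exact zero_mem _
  | succ k ih =>
    have h₁ := prs_fib (Fin.tail a) (Fin.tail b)
    obtain ⟨i, j, hP, e1, e2, e3, e4, e5⟩ := hX.step (hY 0) h₁
    generalize algebraMap W (FT.fibRing (Fin.tail a) (Fin.tail b)) = φ₁ at h₁ hP
    obtain rfl : j.comp φ₁ = φ := hP.comm.symm.trans e1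
    have hB := hW.of_ft h₁.ft
    have hf := hL.bc _ _ _ _ _ _ _ _ _ (hc 0) hP
    have key : ∀ (r : ℕ) (z : HH r G φ₁), HR r G χ hχ (Hmap r ((G.pb φ₁).can j) z) ∈
        Spn (hG.pb ω) s (Fin.tail cl) r := fun r z => by
      have h2 := ih h₁ (χ.comp j) hχ (fun i => hY i.succ) (fun i => hc i.succ) (Fin.tail cl)
        (fun i π p1 p2 p3 => hcl i.succ π p1 (p2.trans (congrArg χ (e4 i)))
          (p3.trans (congrArg χ (e5 i)))) r z
      exact Hmap_comp_of r ((G.pb φ₁).can j) (G.rm χ hχ) (G.rm (χ.comp j) hχ) rfl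
        (fun _ _ _ => rfl) z ▸ h2
    cases r with
    | zero =>
      obtain ⟨z, rfl⟩ := hL.zero _ _ _ _ hB hf (G.pb φ₁) (hG.pb φ₁) ξ
      exact monob_tail _ _ _ _ (key 0 z)
    | succ q =>
      obtain ⟨z, m, rfl⟩ := hL.succ _ _ _ _ hB hf q (G.pb φ₁) (hG.pb φ₁) ξ
      refine (map_add (HR (q + 1) G χ hχ) _ _).symm ▸ add_mem (monob_tail _ _ _ _ (key _ z)) ?_
      refine (map_sum (HR (q + 1) G χ hχ) _ _).symm ▸ sum_mem fun e _ => ?_
      have h3 := cup_nat (hG.pb (j.comp φ₁)) (hG.pb ω) (G.rm χ hχ) (cpb i (c 0 e)) q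
        (Hmap q ((G.pb φ₁).can j) (m e))
      have h4 : cpb χ (cpb i (c 0 e)) = cl 0 e := (cpb_cpb i χ _).trans
        (hcl 0 (χ.comp i) (by rw [RingHom.comp_assoc, e1, hχ]) (congrArg χ e2) (congrArg χ e3) e)
      have h5 := monob_cup (hG.pb ω) s cl e q (key q (m e))
      rw [← h4] at h5
      exact h3 ▸ h5

/-- Lifting a class on a base change to a stage. -/
theorem mc_lift {T X₀ : Type} [CommRing T] [CommRing X₀] {d : W →+* T} (hd : FA.IE d)
    {f₀ : W →+* X₀} {i₀ : X₀ →+* Z} {φ : T →+* Z} (hP : FA.PO f₀ d i₀ φ) (hX : Good X₀)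
    (G : Sys W) (r : ℕ) (ξ : HH r G (φ.comp d)) :
    ∃ (U : FA.Stage d) (X : Type) (_ : CommRing X) (i : X₀ →+* X) (j : U.W →+* X) (χ : X →+* Z)
      (η : HH r G (j.comp U.a)) (h : χ.comp (j.comp U.a) = φ.comp d),
      FA.PO f₀ U.a i j ∧ χ.comp i = i₀ ∧ χ.comp j = φ.comp U.d ∧ HR r G χ h η = ξ := by
  have e₀ : (RingHom.id Z).comp (φ.comp d) = i₀.comp f₀ := hP.comm.symm
  obtain ⟨X, U, j, η, k1, k2, k3⟩ :=
    H_lift_po hd hP hX r (G.pb f₀) (HR r G (RingHom.id Z) e₀ ξ)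
  have e₁ : (RingHom.id X.W).comp (X.a.comp f₀) = j.comp U.a := k1.comm
  have e₂ : X.d.comp (j.comp U.a) = φ.comp d := by
    rw [← RingHom.comp_assoc, k2, RingHom.comp_assoc, U.comm]
  have e₃ : (RingHom.id Z).comp (i₀.comp f₀) = φ.comp d := hP.comm
  have e₄ : X.d.comp (X.a.comp f₀) = φ.comp d := by
    rw [← RingHom.comp_assoc, X.comm, hP.comm]
  refine ⟨U, X.W, inferInstance, X.a, j, X.d, HR r G (RingHom.id X.W) e₁ η, e₂, k1, X.comm, k2, ?_⟩
  have a1 : HR r G X.d e₂ (HR r G (RingHom.id X.W) e₁ η) = HR r G X.d e₄ η :=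
    HR_HR r G (RingHom.id X.W) e₁ X.d e₂ X.d e₄ rfl η
  have a2 : HR r G (RingHom.id Z) e₃ (HR r (G.pb f₀) X.d X.comm η) = HR r G X.d e₄ η :=
    Hmap_comp_of r _ _ _ rfl (fun _ _ _ => rfl) η
  have a3 : HR r G (RingHom.id Z) e₃ (HR r G (RingHom.id Z) e₀ ξ) = ξ :=
    (HR_HR r G _ _ _ _ (RingHom.id Z) rfl rfl ξ).trans (Hmap_id r _ rfl (fun _ _ _ => rfl) ξ)
  rw [a1, ← a2, k3, a3]

/-- The same over an ind-etale algebra `T` without cohomology.  By `H_lift_po` the class comes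
from the base change to a stage `U`; apply `span_mono` over `U.W`, with the curves base changed to
`U.W` (`FA.exists_po`, `Prs.po`, `LHS.bc`). -/
theorem span_top (hL : LHS n) (hW : Base W) (G : Sys W) (hG : G.Tor n) {T : Type} [CommRing T]
    {d : W →+* T} (hd : FA.IE d) (s : HH 0 G d) (h0 : ∀ ξ, ξ ∈ AddSubgroup.zmultiples s)
    (h1 : ∀ (q : ℕ) (ξ : HH (q + 1) G d), ξ = 0)
    {k : ℕ} {a b : Fin k → W} {φ : T →+* Z} {x y : Fin k → Z} (hZ : Prs (d ∘ a) (d ∘ b) φ x y)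
    {Y : Fin k → Type} [∀ i, CommRing (Y i)] {f : ∀ i, W →+* Y i} {x₀ y₀ : ∀ i, Y i}
    (hY : ∀ i, Prs (fun _ : Unit => a i) (fun _ => b i) (f i) (fun _ => x₀ i) fun _ => y₀ i)
    {c : ∀ i, Fin 2 → H 1 (cst (Y i) (ZMod n))} (hc : ∀ i, Fbr n (f i) (c i))
    (cl : Fin k → Fin 2 → H 1 (cst Z (ZMod n)))
    (hcl : ∀ i (π : Y i →+* Z), π.comp (f i) = φ.comp d → π (x₀ i) = x i → π (y₀ i) = y i →
      ∀ e, cpb π (c i e) = cl i e)
    (r : ℕ) (ξ : HH r G (φ.comp d)) :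
    ξ ∈ Spn (hG.pb (φ.comp d)) (HR 0 G φ rfl s) cl r := by
  have hX₀ := prs_fib a b
  obtain ⟨i₀, e₀, ex₀, ey₀⟩ := hX₀.exists_map hZ (τ := d) (fun _ => rfl) fun _ => rfl
  have hP := hX₀.to_po hZ (τ := d) (fun _ => rfl) (fun _ => rfl) e₀ ex₀ ey₀
  obtain ⟨⟨W', u, d', hu, rfl⟩, X, _, i, j, χ, η, h, k1, k2, k3, rfl⟩ :=
    mc_lift hd hP (hW.gd.ft hX₀.ft) G r ξ
  choose Y' _ iY jY hPY using fun t => FA.exists_po (f t) u
  have hf : ∀ (q : ℕ) (ζ : H q (G.pb u)), Hmap q ((G.pb u).can (φ.comp d')) ζ =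
      HR q G φ rfl (HR q G d' rfl ζ) := fun q ζ =>
    (Hmap_comp_of q (G.rm d' rfl) (G.rm φ rfl) ((G.pb u).can (φ.comp d')) rfl
      (fun _ _ _ => rfl) ζ).symm
  refine span_mono hL (hW.of_ft (RingHom.FiniteType.of_finitePresentation (FA.etale_fp hu))) (G.pb u) (hG.pb u) (φ.comp d')
    (HR 0 G φ rfl s) (fun ζ => ?_) (fun q ζ => ?_) (hX₀.po k1) χ k3 (Y := Y') (f := jY)
    (x₀ := fun t => iY t (x₀ t)) (y₀ := fun t => iY t (y₀ t)) (fun t => (hY t).po (hPY t))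
    (c := fun t e => cpb (iY t) (c t e))
    (fun t => hL.bc _ _ _ _ _ _ _ _ _ (hc t) (hPY t)) cl (fun t π p1 p2 p3 e => ?_) r η
  · obtain ⟨m, hm⟩ := AddSubgroup.mem_zmultiples_iff.1 (h0 (HR 0 G d' rfl ζ))
    rw [hf, ← hm, map_zsmul]
    exact AddSubgroup.mem_zmultiples_iff.2 ⟨m, rfl⟩
  · rw [hf, h1 q (HR (q + 1) G d' rfl ζ)]
    exact map_zero _
  · rw [cpb_cpb]
    refine hcl t (π.comp (iY t)) ?_ (p2.trans ?_) (p3.trans ?_) e
    · rw [RingHom.comp_assoc, (hPY t).comm, ← RingHom.comp_assoc, p1, RingHom.comp_assoc]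
    · exact (RingHom.congr_fun k2 _).trans (ex₀ t)
    · exact (RingHom.congr_fun k2 _).trans (ey₀ t)

/-- Signs: apply the composite of the operators `1 + t i`. -/
theorem sign_kill {M ι : Type} [AddCommGroup M] [Fintype ι] (t : ι → M →+ M) (S : Set M)
    (h1 : ∀ x ∈ S, ∀ i, t i x = x ∨ t i x = -x) (h2 : ∀ x ∈ S, ∃ i, t i x = -x) {ξ : M}
    (hξ : ξ ∈ AddSubgroup.closure S) (h3 : ∀ i, t i ξ = ξ) : 2 ^ Fintype.card ι • ξ = 0 := by
  classical
  have key : ∀ s : Finset ι, 2 ^ s.card • ξ ∈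
      AddSubgroup.closure {x | x ∈ S ∧ ∀ i ∈ s, t i x ≠ -x} := fun s => by
    induction s using Finset.induction_on with
    | empty => simpa using hξ
    | insert a s ha ih =>
      have h4 : AddSubgroup.closure {x | x ∈ S ∧ ∀ i ∈ s, t i x ≠ -x} ≤
          (AddSubgroup.closure {x | x ∈ S ∧ ∀ i ∈ insert a s, t i x ≠ -x}).comap
            (AddMonoidHom.id M + t a) := (AddSubgroup.closure_le _).2 fun x hx => by
        rw [SetLike.mem_coe, AddSubgroup.mem_comap, AddMonoidHom.add_apply, AddMonoidHom.id_apply]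
        by_cases e : t a x = -x
        · rw [e, add_neg_cancel]
          exact zero_mem _
        · have h5 : x ∈ AddSubgroup.closure {x | x ∈ S ∧ ∀ i ∈ insert a s, t i x ≠ -x} :=
            AddSubgroup.subset_closure ⟨hx.1, (Finset.forall_mem_insert _ _ _).2 ⟨e, hx.2⟩⟩
          rw [(h1 x hx.1 a).resolve_right e]
          exact add_mem h5 h5
      have h6 := h4 ih
      rwa [AddSubgroup.mem_comap, AddMonoidHom.add_apply, AddMonoidHom.id_apply, map_nsmul, h3,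
        ← two_nsmul, smul_smul, ← pow_succ', ← Finset.card_insert_of_notMem ha] at h6
  have h7 := key Finset.univ
  rwa [show {x | x ∈ S ∧ ∀ i ∈ Finset.univ, t i x ≠ -x} = ∅ from Set.eq_empty_of_forall_notMem
    fun x hx => (h2 x hx.1).elim fun i hi => hx.2 i (Finset.mem_univ i) hi,
    AddSubgroup.closure_empty, AddSubgroup.mem_bot] at h7

/-- Invariant elements of degree at least two are killed by a power of two. -/
theorem inv_kill (hF : F.Tor n) (s : H 0 F) {k : ℕ} (cl : Fin k → Fin 2 → H 1 (cst Z (ZMod n)))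
    (g : Fin k → Z →+* Z) (m : ∀ i, Mor (g i) F F) (hs : ∀ i, Hmap 0 (m i) s = s)
    (hg : ∀ i j e, cpb (g i) (cl j e) = if i.val ≠ 0 ∧ i = j then -cl j e else cl j e) (r : ℕ)
    {ξ : H (r + 2) F} (hξ : ξ ∈ Spn hF s cl (r + 2)) (h : ∀ i, Hmap (r + 2) (m i) ξ = ξ) :
    2 ^ k • ξ = 0 := by
  classical
  obtain ⟨μ, hμ⟩ := exists_monoL hF s (r + 2)
  have h1 : ∀ (σ : Fin (r + 2) → Fin k) (ε : Fin (r + 2) → Fin 2) i,
      Hmap (r + 2) (m i) (mono hF s (r + 2) fun t => cl (σ t) (ε t)) =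
        μ fun t => if i.val ≠ 0 ∧ i = σ t then -cl (σ t) (ε t) else cl (σ t) (ε t) :=
    fun σ ε i => by
      rw [mono_nat hF hF, hs, hμ]
      exact congrArg _ (funext fun t => hg _ _ _)
  have h2 : ∀ (σ : Fin (r + 2) → Fin k) (ε : Fin (r + 2) → Fin 2), StrictMono σ → ∀ u,
      (σ u).val ≠ 0 → Hmap (r + 2) (m (σ u)) (mono hF s (r + 2) fun t => cl (σ t) (ε t)) =
        -mono hF s (r + 2) fun t => cl (σ t) (ε t) := fun σ ε hσ u hu => by
    rw [h1, ← hμ]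
    conv_rhs => rw [← Function.update_eq_self u fun t => cl (σ t) (ε t), ← μ.map_update_neg]
    refine congrArg _ (funext fun t => ?_)
    by_cases e : t = u
    · rw [e, Function.update_self, if_pos ⟨hu, rfl⟩]
    · rw [Function.update_of_ne e, if_neg fun h => e (hσ.injective h.2).symm]
  rw [← Fintype.card_fin k]
  refine sign_kill (fun i => Hmap (r + 2) (m i)) _ ?_ ?_ hξ h
  · rintro _ ⟨σ, ε, hσ, rfl⟩ i
    by_cases e : i.val ≠ 0 ∧ ∃ u, i = σ u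
    · obtain ⟨hi, u, rfl⟩ := e
      exact Or.inr (h2 σ ε hσ u hi)
    · refine Or.inl ((h1 σ ε i).trans ((congrArg _ (funext fun t => ?_)).trans (hμ _)))
      exact if_neg fun h => e ⟨h.1, t, h.2⟩
  · rintro _ ⟨σ, ε, hσ, rfl⟩
    exact ⟨σ 1, h2 σ ε hσ 1 (Nat.pos_iff_ne_zero.1
      (lt_of_le_of_lt (Nat.zero_le _) (hσ (Fin.zero_lt_one))))⟩

end

end Pool.Agent.Lib.MP_16ef92_ag.TP
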