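import Mathlib
import Pool.Agent.Lib.MP_16ef92_ag.TP.Mono
import Pool.Agent.Lib.MP_16ef92_ag.GV.Kr
import Pool.Agent.Lib.MP_16ef92_ag.AL.NA0

set_option autoImplicit false
set_option linter.unusedSectionVars false
set_option linter.unusedVariables false
set_option linter.style.haveILetI false

namespace Pool.Agent.Lib.MP_16ef92_ag.TP

noncomputable section

open RS LH Module AL GV

variable [Bg] {Z : Type} [CommRing Z] {l m : ℕ} [Fact l.Prime] [NeZero (l ^ m)] {F : Sys Z}
  (hF : F.Tor (l ^ m)) (s : H 0 F) {k r d : ℕ}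
  (cl : Fin k → (Fin 2 → ℤ_[l]) →+ H 1 (cst Z (ZMod (l ^ m))))
  {S : Finset (Fin k)} (hS : S.card = r) (e : Fin d ≃ (S → Fin 2))

theorem val_add_smul {M : Type} [AddCommGroup M] {n : ℕ} [NeZero n] {x : M} (h : n • x = 0)
    (a b : ZMod n) : (a + b).val • x = a.val • x + b.val • x := by
  rw [ZMod.val_add, ← add_smul]
  conv_rhs => rw [← Nat.mod_add_div (a.val + b.val) n, add_smul, mul_comm, mul_smul, h, smul_zero,
    add_zero]

/-- The map from the tensor product. -/
def piS : (Fin d → ZMod (l ^ m)) →+ H r F :=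
  AddMonoidHom.mk' (fun w => ∑ a : Fin d, (w a).val • mono hF s r fun t =>
    cl (S.orderIsoOfFin hS t) (Pi.single (e a (S.orderIsoOfFin hS t)) 1)) fun w w' => by
      rw [← Finset.sum_add_distrib]
      exact Finset.sum_congr rfl fun a _ => val_add_smul (H_tor hF r _) _ _

theorem pi_zs {M : Type} [AddCommGroup M] {n : ℕ} [NeZero n] {b : M} (h : n • b = 0) (z : ℤ)
    (w : ZMod n) (hz : (z : ZMod n) = w) : z • b = w.val • b := by
  obtain ⟨c, hc⟩ : (n : ℤ) ∣ z - (w.val : ℤ) := (ZMod.intCast_zmod_eq_zero_iff_dvd _ _).1 (by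
    rw [Int.cast_sub, hz, Int.cast_natCast, ZMod.natCast_zmod_val, sub_self])
  rw [eq_add_of_sub_eq hc, add_smul, mul_comm, mul_smul, natCast_zsmul, h, smul_zero, zero_add,
    natCast_zsmul]

theorem pi_tor {n : ℕ} : (cst Z (ZMod n)).Tor n := fun _ (u : ZMod n) _ =>
  show n • u = 0 by rw [nsmul_eq_mul, ZMod.natCast_self, zero_mul]

theorem pi_exp {A : Type} [AddCommGroup A] (h : ∀ a : A, l ^ m • a = 0)
    (c : (Fin 2 → ℤ_[l]) →+ A) (x : Fin 2 → ℤ_[l]) :
    c x = ∑ ε, ((PadicInt.toZModPow m (x ε)).val : ℤ) • c (Pi.single ε 1) := by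
  have h1 : ∀ ε, ∃ y, x ε - ((PadicInt.toZModPow m (x ε)).val : ℤ_[l]) = (l : ℤ_[l]) ^ m * y :=
    fun ε => zp_zero.1 (by rw [map_sub, map_natCast, ZMod.natCast_zmod_val, sub_self])
  choose y hy using h1
  have h2 : x = (∑ ε, (PadicInt.toZModPow m (x ε)).val • (Pi.single ε 1 : Fin 2 → ℤ_[l])) +
      l ^ m • y := by
    funext ε
    rw [Pi.add_apply, Finset.sum_apply, Finset.sum_eq_single ε (fun b _ hb => by
      rw [Pi.smul_apply, Pi.single_eq_of_ne hb.symm, smul_zero]) (by simp), Pi.smul_apply,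
      Pi.smul_apply, Pi.single_eq_same, nsmul_eq_mul, nsmul_eq_mul, mul_one, Nat.cast_pow, ← hy]
    ring
  conv_lhs => rw [h2, map_add, map_nsmul, h, add_zero, map_sum]
  exact Finset.sum_congr rfl fun ε _ => by rw [map_nsmul, natCast_zsmul]

/-- Multilinearity (`exists_monoL`); `cl i x = ∑ ε, (toZModPow m (x ε)).val • cl i (single ε 1)`
because `l ^ m` kills the target. -/
theorem piS_pu (x : S → Fin 2 → ℤ_[l]) :
    piS hF s cl hS e (fun a => PadicInt.toZModPow m (pu e x a)) =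
      mono hF s r fun t => cl (S.orderIsoOfFin hS t) (x (S.orderIsoOfFin hS t)) := by
  classical
  obtain ⟨ν, hν⟩ := exists_monoL hF s r
  have h1 : (fun t => cl (S.orderIsoOfFin hS t) (x (S.orderIsoOfFin hS t))) = fun t => ∑ ε,
      ((PadicInt.toZModPow m (x (S.orderIsoOfFin hS t) ε)).val : ℤ) •
        cl (S.orderIsoOfFin hS t) (Pi.single ε 1) :=
    funext fun t => pi_exp (H_tor pi_tor 1) _ _
  rw [h1, ← hν, ν.map_sum]
  change ∑ a : Fin d, _ = _
  refine Fintype.sum_equiv (e.trans (Equiv.arrowCongr (S.orderIsoOfFin hS).toEquiv.symm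
    (Equiv.refl _))) _ _ fun a => ?_
  rw [ν.map_smul_univ, hν]
  refine (pi_zs (H_tor hF r _) _ _ ?_).symm
  beta_reduce
  rw [pu, map_prod, Int.cast_prod, ← (S.orderIsoOfFin hS).toEquiv.prod_comp]
  exact Finset.prod_congr rfl fun t _ => by
    rw [Int.cast_natCast, ZMod.natCast_zmod_val]
    rfl

/-- Both sides are additive; check on the reductions of pure tensors of basis vectors
(`pu_single`, `kr_pu`, `redE_apply`, `mono_nat`). -/
theorem piS_act {g : Z →+* Z} (μ : Mor g F F) {q : ℕ} (hs : Hmap 0 μ s = q • s)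
    (f : Fin k → End ℤ_[l] (Fin 2 → ℤ_[l])) (hf : ∀ i v, cl i (f i v) = q • cpb g (cl i v))
    (w : Fin d → ZMod (l ^ m)) : q ^ r • Hmap r μ (piS hF s cl hS e w) =
      q • piS hF s cl hS e (redE (PadicInt.toZModPow m) d (kr e fun i : S => f i) w) := by
  obtain ⟨ν, hν⟩ := exists_monoL hF s r
  have h1 : w = ∑ a, (w a).val • fun b =>
      PadicInt.toZModPow m (pu e (fun i => (Pi.single (e a i) 1 : Fin 2 → ℤ_[l])) b) := by
    funext b
    rw [Finset.sum_apply, Finset.sum_eq_single b (fun a _ h => by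
      rw [Pi.smul_apply, pu_single, if_neg h.symm, map_zero, smul_zero]) (by simp), Pi.smul_apply,
      pu_single, if_pos rfl, map_one, nsmul_eq_mul, mul_one, ZMod.natCast_zmod_val]
  rw [h1]
  simp only [map_sum, map_nsmul, Finset.smul_sum]
  refine Finset.sum_congr rfl fun a _ => ?_
  rw [redE_apply, kr_pu, piS_pu, piS_pu, mono_nat hF hF, hs, mono_nsmul, smul_comm (q ^ r),
    smul_comm q (w a).val, smul_comm (q ^ r)]
  refine congrArg _ (congrArg _ ?_)
  simp only [hf, ← hν, ← natCast_zsmul]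
  rw [ν.map_smul_univ, Finset.prod_const, Finset.card_univ, Fintype.card_fin, Nat.cast_pow]

variable {d : {S : Finset (Fin k) // S.card = r} → ℕ}
  (e : ∀ S : {S : Finset (Fin k) // S.card = r}, Fin (d S) ≃ (S.1 → Fin 2))

/-- The sum over all subsets. -/
def piA : (∀ S, Fin (d S) → ZMod (l ^ m)) →+ H r F :=
  ∑ S, (piS hF s cl S.2 (e S)).comp (Pi.evalAddMonoidHom _ S)

theorem piA_apply (w : ∀ S, Fin (d S) → ZMod (l ^ m)) :
    piA hF s cl e w = ∑ S, piS hF s cl S.2 (e S) (w S) := by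
  rw [piA, AddMonoidHom.finsetSum_apply]
  rfl

/-- A strictly monotone `σ` is the enumeration of its image (`Finset.orderEmbOfFin_unique`). -/
theorem spn_le : Spn hF s (fun i ε => cl i (Pi.single ε 1)) r ≤ (piA hF s cl e).range := by
  classical
  refine (AddSubgroup.closure_le _).2 ?_
  rintro _ ⟨σ, ε, hσ, rfl⟩
  have hc : (Finset.univ.map ⟨σ, hσ.injective⟩ : Finset (Fin k)).card = r := by simp
  have h1 : σ = (Finset.univ.map ⟨σ, hσ.injective⟩ : Finset (Fin k)).orderEmbOfFin hc :=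
    Finset.orderEmbOfFin_unique hc (fun t => by simp) hσ
  generalize (Finset.univ.map ⟨σ, hσ.injective⟩ : Finset (Fin k)) = T at hc h1
  refine ⟨Pi.single ⟨T, hc⟩ fun a => PadicInt.toZModPow m (pu (e ⟨T, hc⟩)
    (fun i => Pi.single (ε ((T.orderIsoOfFin hc).symm i)) 1) a), ?_⟩
  rw [piA_apply, Finset.sum_eq_single ⟨T, hc⟩ (fun b _ hb => by
    rw [Pi.single_eq_of_ne hb, map_zero]) (by simp), Pi.single_eq_same, piS_pu, h1]
  simp only [OrderIso.symm_apply_apply, Finset.coe_orderIsoOfFin_apply]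

end

end Pool.Agent.Lib.MP_16ef92_ag.TP
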