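import Mathlib
import Pool.Agent.Lib.MP_16ef92_ag.TP.Cls
import Pool.Agent.Lib.MP_16ef92_ag.TP.Pi
import Pool.Agent.Lib.MP_16ef92_ag.HS.Rel
import Pool.Agent.Lib.MP_16ef92_ag.CV.GT7

set_option autoImplicit false
set_option linter.unusedSectionVars false
set_option linter.unusedVariables false
set_option linter.style.haveILetI false

namespace Pool.Agent.Lib.MP_16ef92_ag.TP

noncomputable section

open Polynomial AL RS LH GV Module

variable {F : Type} [Field F] [Clos F] [Fintype F] [hq : Fact (Odd (Fintype.card F))]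
  {N : F[X]} [hN : Fact (N ≠ 0)] {k : ℕ} {A B E : Fin k → F[X]}
  {X Z : Type} [CommRing X] [CommRing Z]

variable (N A B E) in
/-- The fibre product over the base and over the top of the tower. -/
structure Dat (X Z : Type) [CommRing X] [CommRing Z] where
  φ : Bb N →+* X
  x : Fin k → X
  y : Fin k → X
  ψ : top N →+* Z
  a : X →+* Z
  ρ : Gam F →* (Z →+* Z)
  prs : Prs (fun i => cf N (E i * A i)) (fun i => cf N (E i * B i)) φ x y
  prs' : Prs (fun i => aT N (cf N (E i * A i))) (fun i => aT N (cf N (E i * B i))) ψ (a ∘ x) (a ∘ y)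
  comm : a.comp φ = ψ.comp (aT N)
  act : ∀ g, (ρ g).comp ψ = ψ.comp (actT N g)
  fx : ∀ g i, ρ g (a (x i)) = a (x i)
  fy : ∀ g i, ρ g (a (y i)) = a (y i)

/-- Take `Z = fibRing` over the top (`prs_fib`, `Prs.exists_map`, `Prs.exists_act`). -/
theorem exists_dat {φ : Bb N →+* X} {x y : Fin k → X}
    (h : Prs (fun i => cf N (E i * A i)) (fun i => cf N (E i * B i)) φ x y) :
    ∃ (Z : Type) (_ : CommRing Z) (D : Dat N A B E X Z), D.φ = φ ∧ D.x = x ∧ D.y = y := by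
  have h' := prs_fib (fun i => aT N (cf N (E i * A i))) fun i => aT N (cf N (E i * B i))
  obtain ⟨a, a1, a2, a3⟩ := h.exists_map h' (τ := aT N) (fun _ => rfl) fun _ => rfl
  obtain ⟨ρ, hρ⟩ := h'.exists_act (actT N) (fun g _ => actT_cf g _) fun g _ => actT_cf g _
  refine ⟨_, _, ⟨φ, x, y, _, a, ρ, h, ?_, a1, fun g => (hρ g).1, fun g i => ?_, fun g i => ?_⟩,
    rfl, rfl, rfl⟩
  · rw [(funext a2 : a ∘ x = _), (funext a3 : a ∘ y = _)]
    exact h'
  · rw [a2]
    exact (hρ g).2.1 i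
  · rw [a3]
    exact (hρ g).2.2 i

variable (D : Dat N A B E X Z)

theorem Dat.po : FA.PO (aT N) D.φ D.ψ D.a :=
  (D.prs.to_po D.prs' (fun _ => rfl) (fun _ => rfl) D.comm (fun _ => rfl) fun _ => rfl).symm

theorem Dat.ie : FA.IE D.a := ie_aT.baseChange D.po.symm

/-- A lift of the Frobenius (`Prs.uq`). -/
theorem Dat.frob {s : Gam F} {fr : X →+* X} (h : fr.comp D.φ = D.φ.comp (actL N (Geo F) s))
    (hx : ∀ i, fr (D.x i) = D.x i) (hy : ∀ i, fr (D.y i) = D.y i) :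
    (D.ρ s).comp D.a = D.a.comp fr := by
  refine D.prs.uq Z _ _ ?_ (fun i => ?_) fun i => ?_
  · rw [RingHom.comp_assoc, D.comm, ← RingHom.comp_assoc, D.act, RingHom.comp_assoc D.φ fr, h,
      ← RingHom.comp_assoc, D.comm]
    rfl
  · rw [RingHom.comp_apply, RingHom.comp_apply, D.fx, hx]
  · rw [RingHom.comp_apply, RingHom.comp_apply, D.fy, hy]

variable [Bg] (p : ℕ) [CharP F p] [CharP OO p]

include p D in
theorem Dat.good : Good X := (good_sub p _).ft D.prs.ft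

include p in
/-- `gt_top`, `GT.bc`, `Sys.ie_lift`, `Good.ie`. -/
theorem Dat.gt : CV.GT D.a (D.ρ.comp (Geo F).subtype) (fam N) := by
  refine (gt_top fun G s hs => ?_).bc ie_aT D.po (fun g => ⟨D.act g, ?_⟩) fun G s hs => ?_
  · obtain ⟨U, t, h1, h2⟩ := G.ie_lift ie_aT (good_sub p _) hs
    exact ⟨U, t, h1, (funext h2).symm⟩
  · refine D.frob (fr := RingHom.id X) (RingHom.ext fun r => ?_) (fun _ => rfl) fun _ => rfl
    exact congrArg D.φ (Subtype.ext (r.2.2 g g.2).symm)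
  · obtain ⟨U, t, h1, h2⟩ := G.ie_lift D.ie ((D.good p).ie D.ie) hs
    exact ⟨U, t, h1, (funext h2).symm⟩

variable {l m : ℕ} [Fact l.Prime] [NeZero (l ^ m)] [NeZero ((l ^ m : ℕ) : OO)]

include p in
/-- The cohomology of the top is spanned by the monomials.  `ζ` exists in `kk F`; `s₀` is the
section attached to `ζ` over `top N` (`exists_sec`), `s` its image; `exists_cls`, `span_top` with
`G = mu _ (lev N U.H)`, `H0_dom`, `H_top`, `base_lev`, `ie_dU`, `prs_wc`; `sec_map`. -/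
theorem Dat.cls (hl : (l : F) ≠ 0) (hL : LHS (l ^ m)) (hC : CrvH (l ^ m))
    (h : ∀ i, A i * B i * (A i - B i) * E i ∣ N) (T : ∀ i, TM l (curve (A i) (B i) (E i))) :
    ∃ (s : H 0 (mu (l ^ m) Z)) (cl : Fin k → (Fin 2 → ℤ_[l]) →+ H 1 (cst Z (ZMod (l ^ m)))),
      (∀ r ξ, ξ ∈ Spn (mu_tor (l ^ m)) s (fun i ε => cl i (Pi.single ε 1)) r) ∧
      ∀ (g : Gam F) (q : ℕ), (g ∈ Geo F ∧ q = 1) ∨ Fr g q →
        Hmap 0 (muMap (l ^ m) (D.ρ g)) s = q • s ∧
          ∀ i v, cl i ((T i).ro g v) = q • cpb (D.ρ g) (cl i v) := by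
  obtain ⟨r, hr⟩ := exists_prm (F := F) (n := l ^ m) (by push_cast; exact pow_ne_zero _ hl)
  obtain ⟨ζ, rfl⟩ := root_one_const (NeZero.pos (l ^ m)) hr.pow_eq_one
  have hζ : IsPrimitiveRoot ζ (l ^ m) := IsPrimitiveRoot.of_map_of_injective (f := (kk F).val) hr
    Subtype.val_injective
  have hT : IsPrimitiveRoot (aT N (kB N ζ)) (l ^ m) :=
    hζ.map_of_injective ((aT N).comp (kB N)).injective
  obtain ⟨s₀, hs₀⟩ := exists_sec (n := l ^ m) hT.pow_eq_one
  obtain ⟨U, hU, c, cl, h1, h2, h3⟩ := exists_cls p hl h T hζ (φ := D.ψ) D.prs'.eq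
  have hs : ∀ x : Pnt Z, uv (((muMap (l ^ m) D.ψ).app s₀).1 x) = x (D.ψ (aT N (kB N ζ))) :=
    fun x => hs₀ (x.comp D.ψ)
  refine ⟨(muMap (l ^ m) D.ψ).app s₀, cl, fun r ξ => ?_, fun g q hg => ?_⟩
  · exact span_top hL (base_lev p hU) (mu (l ^ m) (lev N U.H)) (mu_tor _) (ie_dU hU) s₀
      (H0_dom (good_sub p _) hT hs₀) (H_top p hC)
      (a := fun i => bU N U (cf N (E i * A i))) (b := fun i => bU N U (cf N (E i * B i)))
      D.prs' (fun i => prs_wc _ _) h1 (fun i ε => cl i (Pi.single ε 1)) h2 r ξ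
  · have e : g ζ = (ζ : Om F) ^ q := by
      rcases hg with ⟨hg, rfl⟩ | hg
      · rw [geo_fix hg, pow_one]
      · exact hg ζ
    refine ⟨sec_map hs hs (D.ρ g) ?_, h3 g (D.ρ g) q (D.act g) (D.fx g) (D.fy g) e⟩
    rw [← map_pow]
    exact (RingHom.congr_fun (D.act g) _).trans (congrArg D.ψ (Subtype.ext e))

end

end Pool.Agent.Lib.MP_16ef92_ag.TP
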