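import Mathlib
import Pool.Agent.Lib.MP_16ef92_ag.HS.Rel
import Pool.Agent.Lib.MP_16ef92_ag.GV.Unif

set_option autoImplicit false
set_option linter.unusedSectionVars false
set_option linter.unusedVariables false
set_option linter.style.haveILetI false

namespace Pool.Agent.Lib.MP_16ef92_ag.TP

noncomputable section

open RS CV HS Module AL GV

variable [Bg] {R Rt Γ : Type} [CommRing R] [CommRing Rt] [Group Γ] {a : R →+* Rt}
  {ρ : Γ →* (Rt →+* Rt)} {Φ : Fam Γ} {σ : Γ ≃* Γ} {l m : ℕ} [Fact l.Prime]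
  {I : Type} [Fintype I] {d : I → ℕ} {τ : ∀ i, Γ →* End ℤ_[l] (Fin (d i) → ℤ_[l])}
  {ψ : ∀ i, End ℤ_[l] (Fin (d i) → ℤ_[l])}

variable (m τ) in
/-- The action on the sum of the reduced representations. -/
def wrap_act : Γ →* End ℤ (∀ i, Fin (d i) → ZMod (l ^ m)) where
  toFun g := AddMonoidHom.toIntLinearMap
    { toFun := fun w i => rn (τ i) m g (w i)
      map_zero' := funext fun i => map_zero _
      map_add' := fun v w => funext fun i => map_add _ _ _ }
  map_one' := LinearMap.ext fun w => funext fun i =>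
    show rn (τ i) m 1 (w i) = w i by rw [map_one, End.one_apply]
  map_mul' g k := LinearMap.ext fun w => funext fun i =>
    show rn (τ i) m (g * k) (w i) = rn (τ i) m g (rn (τ i) m k (w i)) by
      rw [map_mul, End.mul_apply]

/-- The level relation: `Cl x c` says that the `c i` are cocycles and `Rel h r F (π ∘ c) x`. -/
theorem exists_rlC (h : GT a ρ Φ) (hA : Acy a) (h2 : H2 Φ l) (hC : ∀ i, Cr Φ (τ i))
    (hI : Φ.Inv σ) (hψ : ∀ i g, ψ i * τ i (σ g) = τ i g * ψ i) {F : Sys R}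
    (hF : F.Tor (l ^ m)) {fr : R →+* R} {ft : Rt →+* Rt} (φ : Mor fr F F)
    (e : ft.comp a = a.comp fr) (hσ : ∀ g, ft.comp (ρ (σ g)) = (ρ g).comp ft) {q j : ℕ}
    (π : (∀ i, Fin (d i) → ZMod (l ^ m)) →+ HH (2 * j + 1) F a) (hπ : Function.Surjective π)
    (h1 : ∀ g w, actH h _ F g (π w) = π fun i => rn (τ i) m g (w i))
    (h3 : ∀ w, q ^ (2 * j + 1) • Hmap _ (up φ e) (π w) =
      q • π fun i => redE (PadicInt.toZModPow m) (d i) (ψ i) (w i))
    {u : ℤ_[l]} (hu : u * (q : ℤ_[l]) ^ j = 1) (T : H (2 * j + 1 + 1) F →+ H (2 * j + 1 + 1) F)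
    (hT : ∀ x, T x = q ^ (j + 1) • Hmap _ φ x - q • x) :
    ∃ Cl, RlC Φ σ τ ψ u q m T Cl ∧
      ∀ x, Hmap (2 * j + 1 + 1) (F.can a) x = 0 → ∃ c, Cl x c := by
  have h4 : PadicInt.toZModPow m u * (q : ZMod (l ^ m)) ^ j = 1 := by
    simpa using congrArg (PadicInt.toZModPow m) hu
  have h5 : ∀ w, q ^ (j + 1) • Hmap _ (up φ e) (π w) = π fun i => (q : ZMod (l ^ m)) •
      PadicInt.toZModPow m u • redE (PadicInt.toZModPow m) (d i) (ψ i) (w i) := fun w => by
    have h6 : q ^ (j + 1) • w = (PadicInt.toZModPow m u).val • q ^ (2 * j + 1) • w :=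
      funext fun i => funext fun k => by
        rw [Pi.smul_apply, Pi.smul_apply, Pi.smul_apply, Pi.smul_apply, Pi.smul_apply,
          Pi.smul_apply, nsmul_eq_mul, nsmul_eq_mul, nsmul_eq_mul, ZMod.natCast_zmod_val,
          Nat.cast_pow, Nat.cast_pow]
        linear_combination (-(q : ZMod (l ^ m)) ^ (j + 1) * w i k) * h4
    rw [← map_nsmul, ← map_nsmul, h6, map_nsmul, map_nsmul, map_nsmul, map_nsmul, h3, ← map_nsmul,
      ← map_nsmul]
    refine congrArg π (funext fun i => ?_)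
    rw [Pi.smul_apply, Pi.smul_apply, smul_comm, Nat.cast_smul_eq_nsmul,
      ← Nat.cast_smul_eq_nsmul (ZMod (l ^ m)) (ZMod.val _), ZMod.natCast_zmod_val]
  refine ⟨fun x c => (∀ i, c i ∈ Zc Φ (rn (τ i) m)) ∧
    Rel h (2 * j + 1) F (fun g => π fun i => c i g) x, ⟨fun x c hx => hx.1,
    fun x c x' c' hx hx' => ⟨fun i => sub_mem (hx.1 i) (hx'.1 i), ?_⟩, fun x c hx => ⟨fun i => ?_, ?_⟩,
    fun x c hx hy => ?_⟩, fun x hx => ?_⟩
  · refine (congrArg (Rel h _ F · _) (funext fun g => ?_)).mp (hx.2.sub hx'.2)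
    exact (map_sub π _ _).symm
  · exact Submodule.smul_mem _ _ (sub_mem (Submodule.smul_mem _ _
      (Psi hI (rn_psi (hψ i) m) ⟨c i, hx.1 i⟩).2) (hx.1 i))
  · have h6 := ((hx.2.map h φ e σ hσ).zsmul (q ^ (j + 1) : ℕ)).sub (hx.2.zsmul (q : ℕ))
    rw [natCast_zsmul, natCast_zsmul, natCast_zsmul, natCast_zsmul, ← hT] at h6
    refine (congrArg (Rel h _ F · _) (funext fun g => ?_)).mp h6
    rw [Pi.sub_apply, Pi.smul_apply, Pi.smul_apply, h5, ← map_nsmul, ← map_sub]
    refine congrArg π (funext fun i => ?_)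
    beta_reduce
    rw [map_natCast, smul_sub, Nat.cast_smul_eq_nsmul _ q (c i g)]
    rfl
  · choose y hy using hy
    refine hx.2.kill hA h2 hF (y := π y) fun g => ?_
    rw [h1, ← map_sub]
    exact congrArg π (funext fun i => hy i g)
  · obtain ⟨c, hc, h6⟩ := exists_rel_lift hA h2 (k := m) (τ := wrap_act m τ) π hπ
      (fun g w => (h1 g w).symm) (fun w => funext fun i => funext fun k => by
        simp only [Pi.smul_apply, nsmul_eq_mul, ZMod.natCast_self, zero_mul, Pi.zero_apply])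
      (fun w => (Fam.Ev.forall fun i => (hC i).rn m).mono fun g hg => funext fun i =>
        show rn (τ i) m g (w i) = w i by rw [hg, End.one_apply]) x hx
    exact ⟨fun i g => c g i, fun i => ⟨fun g k => congrFun (hc.1 g k) i,
      hc.2.mono fun g hg => congrFun hg i⟩, h6⟩

end

end Pool.Agent.Lib.MP_16ef92_ag.TP
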