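import Mathlib
import Pool.Agent.Lib.MP_16ef92_ag.TP.Dat
import Pool.Agent.Lib.MP_16ef92_ag.TP.Wrap
import Pool.Agent.Lib.MP_16ef92_ag.ND.Kil
import Pool.Agent.Lib.MP_16ef92_ag.AL.PH2

set_option autoImplicit false
set_option linter.unusedSectionVars false
set_option linter.unusedVariables false
set_option linter.style.haveILetI false

namespace Pool.Agent.Lib.MP_16ef92_ag.TP

noncomputable section

open Polynomial AL RS LH GV Module TensorProduct

variable {F : Type} [Field F] [Clos F] [Fintype F] [hq : Fact (Odd (Fintype.card F))]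

theorem lvl_cop {l : ℕ} [hp : Fact l.Prime] (hl : (l : F) ≠ 0) (r m : ℕ) :
    Nat.Coprime (Fintype.card F ^ r) (l ^ m) := by
  refine Nat.Coprime.pow r m ((Nat.Prime.coprime_iff_not_dvd hp.out).2 fun e => hl ?_).symm
  obtain ⟨k, h1, hk⟩ := FiniteField.card F (ringChar F)
  rw [(Nat.prime_dvd_prime_iff_eq hp.out h1).1 (hp.out.dvd_of_dvd_pow (hk ▸ e))]
  exact CharP.cast_eq_zero F _

section Abs

variable {N : F[X]} [hN : Fact (N ≠ 0)] {k : ℕ} {A B E : Fin k → F[X]}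
  {X Z : Type} [CommRing X] [CommRing Z] (D : Dat N A B E X Z)
  [Bg] (p : ℕ) [CharP F p] [CharP OO p]
  {l m : ℕ} [Fact l.Prime] [NeZero (l ^ m)] [NeZero ((l ^ m : ℕ) : OO)]

include p in
/-- `Dat.cls`, `π = piA`, `spn_le`, `piS_act`, `exists_rlC` with `Dat.gt`, `H_J_ie`, `h2_fam`,
`tm_cr`; totality by `kil_inv`. -/
theorem Dat.lvl (hl : (l : F) ≠ 0) (hL : LHS (l ^ m)) (hC : CrvH (l ^ m))
    (h : ∀ i, A i * B i * (A i - B i) * E i ∣ N) (T : ∀ i, TM l (curve (A i) (B i) (E i)))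
    {s : Gam F} (hs : Fr s (Fintype.card F)) {fr : X →+* X}
    (h1 : fr.comp D.φ = D.φ.comp (actL N (Geo F) s)) (hx : ∀ i, fr (D.x i) = D.x i)
    (hy : ∀ i, fr (D.y i) = D.y i) {j : ℕ}
    {d : {S : Finset (Fin k) // S.card = 2 * j + 1} → ℕ} (e : ∀ S, Fin (d S) ≃ (S.1 → Fin 2))
    {d' : {S : Finset (Fin k) // S.card = 2 * j + 1 + 1} → ℕ}
    (e' : ∀ S, Fin (d' S) ≃ (S.1 → Fin 2)) {c : {S : Finset (Fin k) // S.card = 2 * j + 1 + 1} → ℕ}
    (hk : ∀ S, ND.Kil (tm (e' S) fun i : S.1 => T i) (c S))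
    {u : ℤ_[l]} (hu : u * (Fintype.card F : ℤ_[l]) ^ j = 1)
    (t : H (2 * j + 1 + 1) (mu (l ^ m) X) →+ H (2 * j + 1 + 1) (mu (l ^ m) X))
    (ht : ∀ ξ, t ξ = Fintype.card F ^ (j + 1) • Hmap _ (muMap (l ^ m) fr) ξ - Fintype.card F • ξ) :
    ∃ Cl, RlC (fam N) (sgm s) (fun S => rg (tm (e S) fun i : S.1 => T i))
      (fun S => tm (e S) (fun i : S.1 => T i) s) u (Fintype.card F) m t Cl ∧
        ∀ ξ, ∃ z, Cl ((∏ S, c S) • ξ) z := by
  obtain ⟨s₀, cl, hsp, hact⟩ := D.cls p hl hL hC h T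
  have hgt := D.gt p
  have key' : ∀ {r : ℕ} {d : {S : Finset (Fin k) // S.card = r} → ℕ}
      (e : ∀ S, Fin (d S) ≃ (S.1 → Fin 2)) (g : Gam F) (q : ℕ),
      (g ∈ Geo F ∧ q = 1) ∨ Fr g q → ∀ w,
      q ^ r • Hmap _ (muMap (l ^ m) (D.ρ g)) (piA (mu_tor (l ^ m)) s₀ cl e w) =
        q • piA (mu_tor (l ^ m)) s₀ cl e fun S => redE (PadicInt.toZModPow m) (d S)
          (tm (e S) (fun i : S.1 => T i) g) (w S) := by
    intro r d e g q hgq w
    obtain ⟨a1, a2⟩ := hact g q hgq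
    rw [piA_apply, piA_apply, map_sum, Finset.smul_sum, Finset.smul_sum]
    exact Finset.sum_congr rfl fun S _ =>
      piS_act _ _ _ S.2 (e S) _ a1 (fun i => (T i).ro g) a2 (w S)
  have key := key' e
  have hσ : ∀ g : Geo F, (D.ρ s).comp ((D.ρ.comp (Geo F).subtype) (sgm s g)) =
      ((D.ρ.comp (Geo F).subtype) g).comp (D.ρ s) := fun g => by
    change D.ρ s * D.ρ (sgm s g : Gam F) = D.ρ g * D.ρ s
    rw [← map_mul, ← map_mul, sgm_val, ← mul_assoc, mul_inv_cancel_left]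
  obtain ⟨Cl, c1, c2⟩ := exists_rlC (τ := fun S => rg (tm (e S) fun i : S.1 => T i))
    (ψ := fun S => tm (e S) (fun i : S.1 => T i) s) hgt
    (fun G q ξ => H_J_ie D.ie (D.good p) q G ξ) (h2_fam hl)
    (fun S => tm_cr hl hN.out (fun i : S.1 => h i) (e S) _) (fam_inv s)
    (fun S g => psi_geo _ s g) (mu_tor (l ^ m)) (muMap (l ^ m) fr) (D.frob h1 hx hy) hσ
    (piA (mu_tor (l ^ m)) s₀ cl e) (fun ξ => spn_le (mu_tor (l ^ m)) s₀ cl e (hsp _ ξ))
    (fun g w => by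
      have h2 := key g 1 (Or.inl ⟨g.2, rfl⟩) w
      rw [one_pow, one_smul, one_smul] at h2
      exact Eq.trans (Hmap_congr _ _ _ rfl (fun _ _ _ => rfl) _) h2)
    (fun w => Eq.trans (congrArg _ (Hmap_congr _ _ _ rfl (fun _ _ _ => rfl) _))
      (key s _ (Or.inr hs) w)) hu t ht
  refine ⟨Cl, c1, fun ξ => c2 _ ?_⟩
  rw [map_nsmul]
  obtain ⟨w, hw⟩ := spn_le (mu_tor (l ^ m)) s₀ cl e' (hsp _ (Hmap _ ((mu (l ^ m) X).can D.a) ξ))
  have h3 := ND.kil_inv hk (piA (mu_tor (l ^ m)) s₀ cl e').ker (fun γ r hγ v hv => ?_) (w := w)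
    fun g hg => ?_
  · rw [AddMonoidHom.mem_ker, map_nsmul] at h3
    exact (congrArg _ hw).symm.trans h3
  · have h2 := key' e' γ _ (Or.inr hγ) v
    rw [AddMonoidHom.mem_ker.1 hv, map_zero, smul_zero] at h2
    refine AddMonoid.addOrderOf_eq_one_iff.1 (Nat.eq_one_of_dvd_coprimes
      (lvl_cop hl r m) (addOrderOf_dvd_of_nsmul_eq_zero h2.symm)
      (addOrderOf_dvd_of_nsmul_eq_zero (H_tor (mu_tor _) _ _)))
  · have h2 := key' e' g 1 (Or.inl ⟨hg, rfl⟩) w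
    rw [one_pow, one_smul, one_smul] at h2
    rw [AddMonoidHom.mem_ker, map_sub, sub_eq_zero]
    refine h2.symm.trans ?_
    rw [hw]
    exact Hmap_comp_of _ _ _ _ (hgt.fix ⟨g, hg⟩) (fun _ _ _ => rfl) ξ

end Abs

theorem lvlb_po {R S S₁ R' S' : Type} [CommRing R] [CommRing S] [CommRing S₁] [CommRing R']
    [CommRing S'] {f : R →+* S} {g : R →+* R'} {i : S →+* S'} {j : R' →+* S'} (h : FA.PO f g i j)
    (e : S ≃+* S₁) : FA.PO (e.toRingHom.comp f) g (i.comp e.symm.toRingHom) j := by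
  refine ⟨?_, fun Z _ u v c => ?_, fun Z _ w w' a b => h.uq Z w w' (RingHom.ext fun x => ?_) b⟩
  · rw [← h.comm]
    ext x
    simp
  · obtain ⟨w, w1, w2⟩ := h.ex Z (u.comp e.toRingHom) v c
    refine ⟨w, ?_, w2⟩
    rw [← RingHom.comp_assoc, w1]
    ext x
    simp
  · simpa using RingHom.congr_fun a (e x)

/-- The geometric fibre product as an algebra over the base ring (`po_bb`, `prs_fib`, `Prs.po`,
`exists_ac`; the constants map through an isomorphism with the algebraic closure). -/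
theorem exists_prs {k : ℕ} (A B C : Fin k → F[X]) (D : F[X]) [Fact (FT.bad A B C * D ≠ 0)] :
    ∃ (φ : Bb (FT.bad A B C * D) →+* AlgebraicClosure F ⊗[F] FT.tot A B C D)
      (x y : Fin k → AlgebraicClosure F ⊗[F] FT.tot A B C D),
      Prs (fun i => cf _ (D * C i * A i)) (fun i => cf _ (D * C i * B i)) φ x y ∧
      ∀ (s : Gam F) (fr : AlgebraicClosure F ⊗[F] FT.tot A B C D →+*
        AlgebraicClosure F ⊗[F] FT.tot A B C D), Fr s (Fintype.card F) →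
        (∀ c r, fr (c ⊗ₜ r) = (c ^ Fintype.card F) ⊗ₜ r) →
        fr.comp φ = φ.comp (actL _ (Geo F) s) ∧ (∀ i, fr (x i) = x i) ∧ ∀ i, fr (y i) = y i := by
  obtain ⟨e⟩ := exists_ac (F := F)
  have hb := po_bb (N := FT.bad A B C * D)
  have hT := lvlb_po (FA.po_tensor (R := F) (S := AlgebraicClosure F) (R' := FT.tot A B C D))
    e.toRingEquiv
  have e1 : e.toRingEquiv.toRingHom.comp (algebraMap F (AlgebraicClosure F)) =
      algebraMap F (kk F) := RingHom.ext fun c => e.commutes c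
  rw [e1, IsScalarTower.algebraMap_eq F (Localization.Away (FT.bad A B C * D))
    (FT.tot A B C D)] at hT
  obtain ⟨φ, h1, h2⟩ := hb.ex _ _ _ (hT.comm.trans (RingHom.comp_assoc _ _ _).symm)
  have hP := hb.symm.cancel (j' := φ) (h1 ▸ hT.symm) h2.symm
  refine ⟨φ, _, _, (prs_fib _ _).po hP, fun s fr hs hf => ?_⟩
  have h3 : ∀ r, fr (1 ⊗ₜ r) = 1 ⊗ₜ r := fun r => by rw [hf, one_pow]
  refine ⟨hb.uq _ (fr.comp φ) (φ.comp (actL _ (Geo F) s)) (RingHom.ext fun c => ?_)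
    (RingHom.ext fun r => ?_), fun i => h3 _, fun i => h3 _⟩
  · have h4 : ∀ c, φ (kB _ c) = e.symm c ⊗ₜ 1 := fun c => RingHom.congr_fun h1 c
    have h5 : actL (FT.bad A B C * D) (Geo F) s (kB _ c) = kB _ (c ^ Fintype.card F) :=
      Subtype.ext (hs c)
    simp only [RingHom.comp_apply]
    rw [h5, h4, h4, hf, map_pow]
  · have h4 : φ (i0 _ r) = 1 ⊗ₜ algebraMap _ _ r := RingHom.congr_fun h2 r
    have h5 : actL (FT.bad A B C * D) (Geo F) s (i0 _ r) = i0 _ r := Subtype.ext (gam_emb s r)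
    simp only [RingHom.comp_apply]
    rw [h5, h4, h3]

end

end Pool.Agent.Lib.MP_16ef92_ag.TP
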